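import Mathlib
import Pool.Agent.R405.Line

/-!
Binary quadratic forms: the tangent lines of the discriminant conic.
-/

set_option autoImplicit false
set_option linter.unusedSectionVars false

open Finset

namespace Pool.Agent.N830.VQ

open NumberField IsDedekindDomain Height Module MvPolynomial
open Pool.Agent.W180.OP (Pl av wt nrm le_nrm nrm_pos nrm_nonneg nrm_le exists_nrm lam lam_eq liou
  wt_nonneg cs min_lam sum_le_of_few abv_mv lam_smul eval_smul_hom)
open Pool.Agent.R405 (up up_ne lff lff_hom eval_lff lam_lff sch1 schLine rothLine nrm_up eval_up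
  lam_up liouS Good exists_good hom_of_map)

section alg

variable {F : Type} [Field F]

/-- the coefficients of `P ↦ P(a)` -/
def qa (a : Fin 2 → F) : Fin 3 → F := ![a 0 ^ 2, a 0 * a 1, a 1 ^ 2]

/-- the coefficients of the polar form of `P` at `a, b` -/
def qw (a b : Fin 2 → F) : Fin 3 → F := ![2 * (a 0 * b 0), a 0 * b 1 + a 1 * b 0, 2 * (a 1 * b 1)]

def det2 (a b : Fin 2 → F) : F := a 0 * b 1 - a 1 * b 0

theorem qa_dot (a : Fin 2 → F) (x : Fin 3 → F) :
    ∑ j, qa a j * x j = x 0 * a 0 ^ 2 + x 1 * (a 0 * a 1) + x 2 * a 1 ^ 2 := by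
  rw [Fin.sum_univ_three]
  simp only [qa, Matrix.cons_val]
  ring

theorem qw_dot (a b : Fin 2 → F) (x : Fin 3 → F) :
    ∑ j, qw a b j * x j = x 0 * (2 * (a 0 * b 0)) + x 1 * (a 0 * b 1 + a 1 * b 0) +
      x 2 * (2 * (a 1 * b 1)) := by
  rw [Fin.sum_univ_three]
  simp only [qw, Matrix.cons_val]
  ring

/-- the discriminant -/
theorem disc_id (a b : Fin 2 → F) (x : Fin 3 → F) :
    (∑ j, qw a b j * x j) ^ 2 - 4 * (∑ j, qa a j * x j) * (∑ j, qa b j * x j) =
      det2 a b ^ 2 * (x 1 ^ 2 - 4 * x 0 * x 2) := by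
  rw [qa_dot, qa_dot, qw_dot, det2]
  ring

theorem frame_det (a b : Fin 2 → F) :
    (Matrix.of ![qa a, qw a b, qa b]).det = det2 a b ^ 3 := by
  rw [Matrix.det_fin_three]
  simp only [Matrix.of_apply, qa, qw, det2, Matrix.cons_val]
  ring

/-- the three forms have no common zero -/
theorem frame_zero {a b : Fin 2 → F} (h : det2 a b ≠ 0) {x : Fin 3 → F}
    (hu : ∑ j, qa a j * x j = 0) (hw : ∑ j, qw a b j * x j = 0) (hz : ∑ j, qa b j * x j = 0) :
    x = 0 := by
  have hd : (Matrix.of ![qa a, qw a b, qa b]).det ≠ 0 := by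
    rw [frame_det]
    exact pow_ne_zero _ h
  apply Matrix.eq_zero_of_mulVec_eq_zero hd
  funext i
  fin_cases i
  · exact hu
  · exact hw
  · exact hz

/-- a form which vanishes at three points -/
theorem three_zero {a b c : Fin 2 → F} (h : det2 a b ≠ 0) (h1 : det2 a c ≠ 0) (h2 : det2 b c ≠ 0)
    {x : Fin 3 → F} (hu : ∑ j, qa a j * x j = 0) (hz : ∑ j, qa b j * x j = 0)
    (hc : ∑ j, qa c j * x j = 0) : x = 0 := by
  refine frame_zero h hu ?_ hz
  have h3 : det2 a b ^ 2 * (∑ j, qa c j * x j) =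
      det2 c b ^ 2 * (∑ j, qa a j * x j) + det2 c b * det2 a c * (∑ j, qw a b j * x j) +
        det2 a c ^ 2 * (∑ j, qa b j * x j) := by
    rw [qa_dot, qa_dot, qw_dot, qa_dot]
    simp only [det2]
    ring
  rw [hu, hz, hc, mul_zero, mul_zero, mul_zero, zero_add, add_zero] at h3
  have h4 : det2 c b ≠ 0 := by
    intro h0
    apply h2
    unfold det2 at h0 ⊢
    linear_combination -h0
  have h5 := h3.symm
  rcases mul_eq_zero.1 h5 with h6 | h6
  · exact absurd h6 (mul_ne_zero h4 h1)
  · exact h6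

/-- the discriminant vanishes and two values vanish -/
theorem disc_zero {a b : Fin 2 → F} (h : det2 a b ≠ 0)
    {x : Fin 3 → F} (hu : ∑ j, qa a j * x j = 0) (hz : ∑ j, qa b j * x j = 0)
    (hc : x 1 ^ 2 - 4 * x 0 * x 2 = 0) : x = 0 := by
  refine frame_zero h hu ?_ hz
  have h3 := disc_id a b x
  rw [hu, hz, hc] at h3
  simpa using h3

/-- a second basis vector -/
theorem exists_compl {a : Fin 2 → F} (ha : a ≠ 0) : ∃ b : Fin 2 → F, det2 a b ≠ 0 := by
  by_cases h : a 0 = 0
  · refine ⟨![1, 0], ?_⟩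
    have h1 : a 1 ≠ 0 := by
      intro h1
      apply ha
      funext i
      fin_cases i
      · exact h
      · exact h1
    simp [det2, h, h1]
  · refine ⟨![0, 1], ?_⟩
    simp [det2, h]

/-- the discriminant as a polynomial -/
noncomputable def DD (F : Type) [Field F] : MvPolynomial (Fin 3) F :=
  X 1 ^ 2 - C 4 * (X 0 * X 2)

theorem DD_hom : (DD F).IsHomogeneous 2 := by
  refine IsHomogeneous.sub ?_ ?_
  · exact (isHomogeneous_X F 1).pow 2
  · have h := (isHomogeneous_C (Fin 3) (4 : F)).mul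
      ((isHomogeneous_X F 0).mul (isHomogeneous_X F 2))
    simpa using h

theorem eval_DD (x : Fin 3 → F) : eval x (DD F) = x 1 ^ 2 - 4 * x 0 * x 2 := by
  simp [DD]
  ring

end alg

section ext

variable {F L : Type} [Field F] [Field L] [Algebra F L]

theorem aeval_lff' (b : Fin 3 → F) (x : Fin 3 → L) :
    aeval x (lff b) = ∑ j, algebraMap F L (b j) * x j := by
  simp [lff]

theorem aeval_DD (x : Fin 3 → L) : aeval x (DD F) = x 1 ^ 2 - 4 * x 0 * x 2 := by
  simp [DD, map_ofNat]
  ring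

theorem qa_map (a : Fin 2 → F) (j : Fin 3) :
    algebraMap F L (qa a j) = qa (fun i => algebraMap F L (a i)) j := by
  fin_cases j <;> simp [qa]

theorem qw_map (a b : Fin 2 → F) (j : Fin 3) :
    algebraMap F L (qw a b j) = qw (fun i => algebraMap F L (a i))
      (fun i => algebraMap F L (b i)) j := by
  fin_cases j <;> simp [qw, map_ofNat]

theorem det2_map {a b : Fin 2 → F} (h : det2 a b ≠ 0) :
    det2 (fun i => algebraMap F L (a i)) (fun i => algebraMap F L (b i)) ≠ 0 := by
  have : det2 (fun i => algebraMap F L (a i)) (fun i => algebraMap F L (b i)) =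
      algebraMap F L (det2 a b) := by
    simp [det2]
  rw [this, Ne, map_eq_zero]
  exact h

end ext

section loc

variable {F : Type} [Field F]

/-- three values -/
theorem loc3 (f : AbsoluteValue F ℝ) {a b c : Fin 2 → F} (h : det2 a b ≠ 0) (h1 : det2 a c ≠ 0)
    (h2 : det2 b c ≠ 0) : ∃ B : ℝ, ∀ x : Fin 3 → F, x ≠ 0 → eval x (lff (qa a)) ≠ 0 →
      eval x (lff (qa b)) ≠ 0 → eval x (lff (qa c)) ≠ 0 →
      min (lam f 1 (lff (qa a)) x) (min (lam f 1 (lff (qa b)) x) (lam f 1 (lff (qa c)) x)) ≤ B := by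
  obtain ⟨B, hB⟩ := min_lam (by norm_num : 0 < 3)
    (![lff (qa a), lff (qa b), lff (qa c)] : Fin 3 → MvPolynomial (Fin 3) F) ![1, 1, 1] (by
      intro i
      fin_cases i
      · exact lff_hom _
      · exact lff_hom _
      · exact lff_hom _) (by
      intro L _ _ x hx
      have e0 := hx 0
      have e1 := hx 1
      have e2 := hx 2
      simp only [Matrix.cons_val, aeval_lff', qa_map] at e0 e1 e2
      exact three_zero (det2_map h) (det2_map h1) (det2_map h2) e0 e1 e2) f
  refine ⟨B, fun x hx ha hb hc => ?_⟩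
  obtain ⟨i, hi⟩ := hB x hx (by
    intro i
    fin_cases i
    · exact ha
    · exact hb
    · exact hc)
  fin_cases i
  · exact (min_le_left _ _).trans hi
  · exact ((min_le_right _ _).trans (min_le_left _ _)).trans hi
  · exact ((min_le_right _ _).trans (min_le_right _ _)).trans hi

/-- two values and the discriminant -/
theorem locD (f : AbsoluteValue F ℝ) {a b : Fin 2 → F} (h : det2 a b ≠ 0) :
    ∃ B : ℝ, ∀ x : Fin 3 → F, x ≠ 0 → eval x (lff (qa a)) ≠ 0 →
      eval x (lff (qa b)) ≠ 0 → eval x (DD F) ≠ 0 →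
      min (lam f 1 (lff (qa a)) x) (min (lam f 1 (lff (qa b)) x) (lam f 2 (DD F) x)) ≤ B := by
  obtain ⟨B, hB⟩ := min_lam (by norm_num : 0 < 3)
    (![lff (qa a), lff (qa b), DD F] : Fin 3 → MvPolynomial (Fin 3) F) ![1, 1, 2] (by
      intro i
      fin_cases i
      · exact lff_hom _
      · exact lff_hom _
      · exact DD_hom) (by
      intro L _ _ x hx
      have e0 := hx 0
      have e1 := hx 1
      have e2 := hx 2
      simp only [Matrix.cons_val, aeval_lff', qa_map, aeval_DD] at e0 e1 e2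
      exact disc_zero (det2_map h) e0 e1 e2) f
  refine ⟨B, fun x hx ha hb hc => ?_⟩
  obtain ⟨i, hi⟩ := hB x hx (by
    intro i
    fin_cases i
    · exact ha
    · exact hb
    · exact hc)
  fin_cases i
  · exact (min_le_left _ _).trans hi
  · exact ((min_le_right _ _).trans (min_le_left _ _)).trans hi
  · exact ((min_le_right _ _).trans (min_le_right _ _)).trans hi

/-- a local height is bounded below -/
theorem lam_ge (f : AbsoluteValue F ℝ) {n d : ℕ} {G : MvPolynomial (Fin n) F}
    (hG : G.IsHomogeneous d) : ∃ B : ℝ, 0 ≤ B ∧ ∀ x : Fin n → F, x ≠ 0 → eval x G ≠ 0 →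
      -B ≤ lam f d G x := by
  refine ⟨|Real.log (cs f G)|, abs_nonneg _, fun x hx hGx => ?_⟩
  rw [lam_eq f _ _ hx hGx]
  have h0 := abv_mv f G hG x
  have h1 := f.pos_iff.2 hGx
  have h2 := nrm_pos f hx
  have h3 : 0 < cs f G := by
    by_contra h
    push Not at h
    have : cs f G * nrm f x ^ d ≤ 0 := mul_nonpos_of_nonpos_of_nonneg h (by positivity)
    linarith
  have h4 := Real.log_le_log h1 h0
  rw [Real.log_mul h3.ne' (by positivity), Real.log_pow] at h4
  have := le_abs_self (Real.log (cs f G))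
  linarith

/-- the polar form is small if the discriminant and the product of the values are small -/
theorem locW (f : AbsoluteValue F ℝ) {a b : Fin 2 → F} (h : det2 a b ≠ 0) :
    ∃ B : ℝ, 0 ≤ B ∧ ∀ x : Fin 3 → F, x ≠ 0 → eval x (lff (qa a)) ≠ 0 →
      eval x (lff (qa b)) ≠ 0 → eval x (DD F) ≠ 0 → eval x (lff (qw a b)) ≠ 0 →
      min (lam f 2 (DD F) x) (lam f 1 (lff (qa a)) x + lam f 1 (lff (qa b)) x) ≤
        2 * lam f 1 (lff (qw a b)) x + B := by
  set c : ℝ := f (det2 a b ^ 2) + f 4 with hc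
  have hc0 : 0 < c := by
    have h1 : 0 < f (det2 a b ^ 2) := f.pos_iff.2 (pow_ne_zero _ h)
    have h2 := f.nonneg (4 : F)
    linarith
  refine ⟨|Real.log c|, abs_nonneg _, fun x hx hu hz hD hw => ?_⟩
  rw [lam_eq f _ _ hx hu, lam_eq f _ _ hx hz, lam_eq f _ _ hx hD, lam_eq f _ _ hx hw]
  rw [eval_lff] at hu hz hw
  rw [eval_DD] at hD
  rw [eval_lff, eval_lff, eval_lff, eval_DD]
  set u := ∑ j, qa a j * x j
  set z := ∑ j, qa b j * x j
  set w := ∑ j, qw a b j * x j
  set D := x 1 ^ 2 - 4 * x 0 * x 2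
  have hid : w ^ 2 = det2 a b ^ 2 * D + 4 * (u * z) := by
    have := disc_id a b x
    linear_combination this
  have hfu := f.pos_iff.2 hu
  have hfz := f.pos_iff.2 hz
  have hfw := f.pos_iff.2 hw
  have hfD := f.pos_iff.2 hD
  have h1 : f w ^ 2 ≤ c * max (f D) (f u * f z) := by
    rw [← map_pow, hid]
    refine (f.add_le _ _).trans ?_
    rw [map_mul, map_mul f 4, map_mul f u, hc, add_mul]
    exact add_le_add (mul_le_mul_of_nonneg_left (le_max_left _ _) (f.nonneg _))
      (mul_le_mul_of_nonneg_left (le_max_right _ _) (f.nonneg _))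
  have hm : 0 < max (f D) (f u * f z) := lt_max_of_lt_left hfD
  have h2 := Real.log_le_log (by positivity) h1
  rw [Real.log_pow, Real.log_mul hc0.ne' hm.ne'] at h2
  have habs := le_abs_self (Real.log c)
  push_cast at h2 ⊢
  rcases le_total (f D) (f u * f z) with h3 | h3
  · rw [max_eq_right h3, Real.log_mul hfu.ne' hfz.ne'] at h2
    refine (min_le_right _ _).trans ?_
    linarith
  · rw [max_eq_left h3] at h2
    refine (min_le_left _ _).trans ?_
    linarith

end loc

end Pool.Agent.N830.VQ
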