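import Mathlib
import Pool.Agent.N830.VQ.A

/-!
One place: all quadratic points.
-/

set_option autoImplicit false
set_option linter.unusedSectionVars false

open Finset

namespace Pool.Agent.N830.VQ

open NumberField IsDedekindDomain Height Module MvPolynomial
open Pool.Agent.W180.OP (Pl av wt nrm le_nrm nrm_pos nrm_nonneg nrm_le exists_nrm lam lam_eq liou
  wt_nonneg cs min_lam sum_le_of_few abv_mv lam_smul eval_smul_hom)
open Pool.Agent.R405 (up up_ne lff lff_hom eval_lff lam_lff sch1 schLine rothLine nrm_up eval_up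
  lam_up liouS Good exists_good hom_of_map)

section comb

variable {F : Type} [Field F]

/-- at most two of the local heights are large -/
theorem combine (f : AbsoluteValue F ℝ) {q : ℕ} (a : Fin q → Fin 2 → F)
    (hd : ∀ i j, i ≠ j → det2 (a i) (a j) ≠ 0) :
    ∃ B : ℝ, 0 ≤ B ∧ ∀ x : Fin 3 → F, x ≠ 0 → (∀ i, eval x (lff (qa (a i))) ≠ 0) →
      eval x (DD F) ≠ 0 → ∀ w R : ℝ, 0 ≤ w → 0 ≤ R →
      (∀ i, w * lam f 1 (lff (qa (a i))) x ≤ R) → w * lam f 2 (DD F) x ≤ R →
      (∀ i j, i ≠ j → w * (lam f 1 (lff (qa (a i))) x + lam f 1 (lff (qa (a j))) x) ≤ R) →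
      (∀ i, w * (lam f 1 (lff (qa (a i))) x + lam f 2 (DD F) x) ≤ R) →
      w * (∑ i, lam f 1 (lff (qa (a i))) x + lam f 2 (DD F) x) ≤ R + w * B := by
  classical
  have h3 : ∀ i j l, ∃ B : ℝ, i ≠ j → i ≠ l → j ≠ l → ∀ x : Fin 3 → F, x ≠ 0 →
      (∀ i, eval x (lff (qa (a i))) ≠ 0) → min (lam f 1 (lff (qa (a i))) x)
        (min (lam f 1 (lff (qa (a j))) x) (lam f 1 (lff (qa (a l))) x)) ≤ B := by
    intro i j l
    by_cases h : i ≠ j ∧ i ≠ l ∧ j ≠ l
    · obtain ⟨B, hB⟩ := loc3 f (hd i j h.1) (hd i l h.2.1) (hd j l h.2.2)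
      exact ⟨B, fun _ _ _ x hx hu => hB x hx (hu i) (hu j) (hu l)⟩
    · exact ⟨0, fun h1 h2 h3 => absurd ⟨h1, h2, h3⟩ h⟩
  choose B3 hB3 using h3
  have h2 : ∀ i j, ∃ B : ℝ, i ≠ j → ∀ x : Fin 3 → F, x ≠ 0 →
      (∀ i, eval x (lff (qa (a i))) ≠ 0) → eval x (DD F) ≠ 0 →
      min (lam f 1 (lff (qa (a i))) x)
        (min (lam f 1 (lff (qa (a j))) x) (lam f 2 (DD F) x)) ≤ B := by
    intro i j
    by_cases h : i ≠ j
    · obtain ⟨B, hB⟩ := locD f (hd i j h)
      exact ⟨B, fun _ x hx hu hD => hB x hx (hu i) (hu j) hD⟩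
    · exact ⟨0, fun h1 => absurd h1 h⟩
  choose B2 hB2 using h2
  set B : ℝ := ∑ i, ∑ j, |B2 i j| + ∑ i, ∑ j, ∑ l, |B3 i j l| with hB
  have hB20 : 0 ≤ ∑ i, ∑ j, |B2 i j| :=
    Finset.sum_nonneg fun _ _ => Finset.sum_nonneg fun _ _ => abs_nonneg _
  have hB30 : 0 ≤ ∑ i, ∑ j, ∑ l, |B3 i j l| :=
    Finset.sum_nonneg fun _ _ => Finset.sum_nonneg fun _ _ => Finset.sum_nonneg fun _ _ =>
      abs_nonneg _
  have hB0 : 0 ≤ B := by linarith
  have hB2le : ∀ i j, B2 i j ≤ B := by
    intro i j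
    have h1 : |B2 i j| ≤ ∑ i, ∑ j, |B2 i j| :=
      (Finset.single_le_sum (f := fun j => |B2 i j|) (fun _ _ => abs_nonneg _)
        (Finset.mem_univ j)).trans
      (Finset.single_le_sum (f := fun i => ∑ j, |B2 i j|)
        (fun _ _ => Finset.sum_nonneg fun _ _ => abs_nonneg _) (Finset.mem_univ i))
    have := le_abs_self (B2 i j)
    linarith
  have hB3le : ∀ i j l, B3 i j l ≤ B := by
    intro i j l
    have h1 : |B3 i j l| ≤ ∑ i, ∑ j, ∑ l, |B3 i j l| :=
      ((Finset.single_le_sum (f := fun l => |B3 i j l|) (fun _ _ => abs_nonneg _)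
        (Finset.mem_univ l)).trans
      (Finset.single_le_sum (f := fun j => ∑ l, |B3 i j l|)
        (fun _ _ => Finset.sum_nonneg fun _ _ => abs_nonneg _) (Finset.mem_univ j))).trans
      (Finset.single_le_sum (f := fun i => ∑ j, ∑ l, |B3 i j l|)
        (fun _ _ => Finset.sum_nonneg fun _ _ => Finset.sum_nonneg fun _ _ => abs_nonneg _)
        (Finset.mem_univ i))
    have := le_abs_self (B3 i j l)
    linarith
  refine ⟨(q + 1) * B, by positivity, fun x hx hu hD w R hw hR h1 h1D h2 h2D => ?_⟩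
  set l : Fin (q + 1) → ℝ := Fin.cons (w * lam f 2 (DD F) x)
    (fun i => w * lam f 1 (lff (qa (a i))) x) with hl
  have hmin : ∀ s t r : ℝ, min s (min t r) ≤ B → min (w * s) (min (w * t) (w * r)) ≤ w * B := by
    intro s t r h
    rw [← mul_min_of_nonneg _ _ hw, ← mul_min_of_nonneg _ _ hw]
    exact mul_le_mul_of_nonneg_left h hw
  have key := sum_le_of_few l (w * B) R (by positivity) hR (by
    intro i j k hij hik hjk
    induction i using Fin.cases with
    | zero =>
      induction j using Fin.cases with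
      | zero => exact absurd rfl hij
      | succ j =>
        induction k using Fin.cases with
        | zero => exact absurd rfl hik
        | succ k =>
          have hne : j ≠ k := fun h => hjk (by rw [h])
          simp only [hl, Fin.cons_zero, Fin.cons_succ]
          refine hmin _ _ _ ?_
          have := (hB2 j k hne x hx hu hD).trans (hB2le j k)
          rw [min_comm, min_assoc]
          exact this
    | succ i =>
      induction j using Fin.cases with
      | zero =>
        induction k using Fin.cases with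
        | zero => exact absurd rfl hjk
        | succ k =>
          have hne : i ≠ k := fun h => hik (by rw [h])
          simp only [hl, Fin.cons_zero, Fin.cons_succ]
          refine hmin _ _ _ ?_
          have := (hB2 i k hne x hx hu hD).trans (hB2le i k)
          rw [min_comm (lam f 2 (DD F) x)]
          exact this
      | succ j =>
        have hne : i ≠ j := fun h => hij (by rw [h])
        induction k using Fin.cases with
        | zero =>
          simp only [hl, Fin.cons_zero, Fin.cons_succ]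
          exact hmin _ _ _ ((hB2 i j hne x hx hu hD).trans (hB2le i j))
        | succ k =>
          have hne1 : i ≠ k := fun h => hik (by rw [h])
          have hne2 : j ≠ k := fun h => hjk (by rw [h])
          simp only [hl, Fin.cons_succ]
          exact hmin _ _ _ ((hB3 i j k hne hne1 hne2 x hx hu).trans (hB3le i j k))) (by
    intro i
    induction i using Fin.cases with
    | zero => simpa [hl] using h1D
    | succ i => simpa [hl] using h1 i) (by
    intro i j hij
    induction i using Fin.cases with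
    | zero =>
      induction j using Fin.cases with
      | zero => exact absurd rfl hij
      | succ j =>
        simp only [hl, Fin.cons_zero, Fin.cons_succ]
        have := h2D j
        rw [mul_add] at this
        linarith
    | succ i =>
      induction j using Fin.cases with
      | zero =>
        simp only [hl, Fin.cons_zero, Fin.cons_succ]
        have := h2D i
        rw [mul_add] at this
        linarith
      | succ j =>
        have hne : i ≠ j := fun h => hij (by rw [h])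
        simp only [hl, Fin.cons_succ]
        have := h2 i j hne
        rw [mul_add] at this
        linarith)
  have h4 : ∑ i, l i = w * (∑ i, lam f 1 (lff (qa (a i))) x + lam f 2 (DD F) x) := by
    rw [Fin.sum_univ_succ]
    simp only [hl, Fin.cons_zero, Fin.cons_succ]
    rw [mul_add, Finset.mul_sum]
    ring
  rw [h4] at key
  refine key.trans (le_of_eq ?_)
  push_cast
  ring

end comb

section main

variable {k K : Type} [Field k] [NumberField k] [Field K] [NumberField K] [Algebra k K]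

theorem DD_up (x : Fin 3 → k) : eval (up K x) (DD K) = algebraMap k K (eval x (DD k)) := by
  rw [eval_DD, eval_DD]
  simp [up, map_ofNat]

/-- the Liouville inequality for the discriminant -/
theorem liouD (v : Pl k) : ∃ C : ℝ, 0 ≤ C ∧ ∀ (f : AbsoluteValue K ℝ), Good v f →
    ∀ x : Fin 3 → k, x ≠ 0 → eval x (DD k) ≠ 0 →
    wt v * lam f 2 (DD K) (up K x) ≤ 2 * logHeight x + C := by
  obtain ⟨C, hC0, hC⟩ := liouS v (DD k) 2 DD_hom
  refine ⟨C, hC0, fun f hf x hx hD => ?_⟩
  have h1 := hC x hx hD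
  have h2 : lam f 2 (DD K) (up K x) = lam (av v) 2 (DD k) x := by
    rw [lam_eq f _ _ (up_ne hx) (by rw [DD_up, Ne, map_eq_zero]; exact hD),
      lam_eq _ _ _ hx hD, DD_up, hf.ext, nrm_up hf]
  rw [h2]
  push_cast at h1
  linarith

/-- arithmetic of the tangent point -/
theorem arith {m h ε C U W V D B : ℝ} (hm : 0 ≤ m) (hh : 0 ≤ h) (hε : 0 ≤ ε) (hC : 0 ≤ C)
    (hB : 0 ≤ B) (hS : m * (U + W + V) ≤ (3 + ε) * h + C) (hD : m * D ≤ 2 * h + C)
    (hU0 : -B ≤ U) (hW0 : -B ≤ W) (hV0 : -B ≤ V)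
    (hmin : min U (min V D) ≤ B) (hW : min D (U + V) ≤ 2 * W + B) :
    m * U ≤ (4 + ε) * h + 6 * (C + m * B) ∧ m * (U + D) ≤ (4 + ε) * h + 6 * (C + m * B) := by
  have hmB : 0 ≤ m * B := mul_nonneg hm hB
  have hεh : 0 ≤ ε * h := mul_nonneg hε hh
  have hmU0 : -(m * B) ≤ m * U := by
    have := mul_le_mul_of_nonneg_left hU0 hm
    linarith
  have hmW0 : -(m * B) ≤ m * W := by
    have := mul_le_mul_of_nonneg_left hW0 hm
    linarith
  have hmV0 : -(m * B) ≤ m * V := by
    have := mul_le_mul_of_nonneg_left hV0 hm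
    linarith
  have hS' : m * U + m * W + m * V ≤ (3 + ε) * h + C := by
    rw [← mul_add, ← mul_add]
    exact hS
  have hUD : m * (U + D) = m * U + m * D := mul_add _ _ _
  rw [hUD]
  have e1 : (3 + ε) * h = 3 * h + ε * h := by ring
  have e2 : (4 + ε) * h = 4 * h + ε * h := by ring
  rw [e1] at hS'
  rw [e2]
  refine ⟨by linarith, ?_⟩
  rcases min_le_iff.1 hmin with h1 | h1
  · have := mul_le_mul_of_nonneg_left h1 hm
    linarith
  rcases min_le_iff.1 h1 with h2 | h2
  · have hV1 := mul_le_mul_of_nonneg_left h2 hm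
    rcases min_le_iff.1 hW with h3 | h3
    · have := mul_le_mul_of_nonneg_left h3 hm
      rw [mul_add] at this
      have e3 : m * (2 * W) = 2 * (m * W) := by ring
      rw [e3] at this
      linarith
    · have := mul_le_mul_of_nonneg_left h3 hm
      rw [mul_add, mul_add] at this
      have e3 : m * (2 * W) = 2 * (m * W) := by ring
      rw [e3] at this
      linarith
  · have := mul_le_mul_of_nonneg_left h2 hm
    linarith

/-- the estimates for one and two local heights -/
def Est (v : Pl k) (f : AbsoluteValue K ℝ) {q : ℕ} (a : Fin q → Fin 2 → K) (ε C : ℝ)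
    (x : Fin 3 → k) : Prop :=
  (∀ i, wt v * lam f 1 (lff (qa (a i))) (up K x) ≤ (4 + ε) * logHeight x + C) ∧
  (∀ i j, i ≠ j → wt v * (lam f 1 (lff (qa (a i))) (up K x) +
    lam f 1 (lff (qa (a j))) (up K x)) ≤ (4 + ε) * logHeight x + C) ∧
  (∀ i, wt v * (lam f 1 (lff (qa (a i))) (up K x) + lam f 2 (DD K) (up K x)) ≤
    (4 + ε) * logHeight x + C)

/-- the points off finitely many lines -/
theorem generic [IsGalois ℚ K] (hi : ∃ z : K, z ^ 2 = -1) (v : Pl k)
    (f : AbsoluteValue K ℝ) (hf : Good v f) {q : ℕ} (a : Fin q → Fin 2 → K)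
    (ha : ∀ i, a i ≠ 0) (hd : ∀ i j, i ≠ j → det2 (a i) (a j) ≠ 0) (ε : ℝ) (hε : 0 < ε) :
    ∃ (Z : Finset (Fin 3 → K)) (C : ℝ), 0 ≤ C ∧ (∀ d ∈ Z, d ≠ 0) ∧ ∀ x : Fin 3 → k, x ≠ 0 →
      (∀ d ∈ Z, ∑ j, d j * algebraMap k K (x j) ≠ 0) →
      (∀ i, eval (up K x) (lff (qa (a i))) ≠ 0) → eval x (DD k) ≠ 0 → Est v f a ε C x := by
  classical
  have hw := wt_nonneg v
  obtain ⟨CD, hCD0, hCD⟩ := liouD (K := K) v
  -- one index
  have h1 : ∀ i, ∃ (Z : Finset (Fin 3 → K)) (C : ℝ), 0 ≤ C ∧ (∀ d ∈ Z, d ≠ 0) ∧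
      ∀ x : Fin 3 → k, x ≠ 0 → (∀ d ∈ Z, ∑ j, d j * algebraMap k K (x j) ≠ 0) →
      (∀ i, eval (up K x) (lff (qa (a i))) ≠ 0) → eval x (DD k) ≠ 0 →
      wt v * lam f 1 (lff (qa (a i))) (up K x) ≤ (4 + ε) * logHeight x + C ∧
      wt v * (lam f 1 (lff (qa (a i))) (up K x) + lam f 2 (DD K) (up K x)) ≤
        (4 + ε) * logHeight x + C := by
    intro i
    obtain ⟨b, hb⟩ := exists_compl (ha i)
    obtain ⟨Z, C, hZ, hC⟩ := sch1 (n := 3) hi (by norm_num) v f hf
      (![qa (a i), qw (a i) b, qa b] : Fin 3 → Fin 3 → K) (by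
        rw [frame_det]
        exact pow_ne_zero _ hb) ε hε
    obtain ⟨B1, hB10, hB1⟩ := lam_ge f (lff_hom (qa (a i)))
    obtain ⟨B2, hB20, hB2⟩ := lam_ge f (lff_hom (qw (a i) b))
    obtain ⟨B3, hB30, hB3⟩ := lam_ge f (lff_hom (qa b))
    obtain ⟨B4, hB40, hB4⟩ := lam_ge f (DD_hom (F := K))
    obtain ⟨B5, hB5⟩ := locD f hb
    obtain ⟨B6, hB60, hB6⟩ := locW f hb
    set B : ℝ := B1 + B2 + B3 + B4 + |B5| + B6 with hBdef
    have hB5' := le_abs_self B5
    have hB5'' := abs_nonneg B5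
    have hB0 : 0 ≤ B := by positivity
    refine ⟨Z, 6 * ((|C| + CD) + wt v * B), by positivity, hZ, fun x hx hZx hu hD => ?_⟩
    obtain ⟨g1, g2⟩ := hC x hx hZx
    have hDK : eval (up K x) (DD K) ≠ 0 := by
      rw [DD_up, Ne, map_eq_zero]
      exact hD
    have hwx : eval (up K x) (lff (qw (a i) b)) ≠ 0 := by
      rw [eval_lff]
      exact g1 1
    have hbx : eval (up K x) (lff (qa b)) ≠ 0 := by
      rw [eval_lff]
      exact g1 2
    have hxK : up K x ≠ 0 := up_ne hx
    rw [Fin.sum_univ_three] at g2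
    simp only [Matrix.cons_val] at g2
    push_cast at g2
    have t1 := hB1 _ hxK (hu i)
    have t2 := hB2 _ hxK hwx
    have t3 := hB3 _ hxK hbx
    have t4 := hB4 _ hxK hDK
    have t5 := hB5 _ hxK (hu i) hbx hDK
    have t6 := hB6 _ hxK (hu i) hbx hDK hwx
    have t7 := hCD f hf x hx hD
    have habs := le_abs_self C
    exact arith (W := lam f 1 (lff (qw (a i) b)) (up K x)) (V := lam f 1 (lff (qa b)) (up K x))
      hw (logHeight_nonneg x) hε.le (by positivity) hB0 (by linarith) (by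
        have := abs_nonneg C
        linarith)
      (by linarith) (by linarith) (by linarith) (t5.trans (by linarith))
      (t6.trans (by linarith))
  choose Z1 C1 hC10 hZ1 hC1 using h1
  -- two indices
  have h2 : ∀ i j, ∃ (Z : Finset (Fin 3 → K)) (C : ℝ), 0 ≤ C ∧ (∀ d ∈ Z, d ≠ 0) ∧ (i ≠ j →
      ∀ x : Fin 3 → k, x ≠ 0 → (∀ d ∈ Z, ∑ j, d j * algebraMap k K (x j) ≠ 0) →
      wt v * (lam f 1 (lff (qa (a i))) (up K x) + lam f 1 (lff (qa (a j))) (up K x)) ≤
        (4 + ε) * logHeight x + C) := by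
    intro i j
    by_cases hij : i ≠ j
    · obtain ⟨Z, C, hZ, hC⟩ := sch1 (n := 3) hi (by norm_num) v f hf
        (![qa (a i), qw (a i) (a j), qa (a j)] : Fin 3 → Fin 3 → K) (by
          rw [frame_det]
          exact pow_ne_zero _ (hd i j hij)) ε hε
      obtain ⟨B2, hB20, hB2⟩ := lam_ge f (lff_hom (qw (a i) (a j)))
      refine ⟨Z, |C| + wt v * B2, by positivity, hZ, fun _ x hx hZx => ?_⟩
      obtain ⟨g1, g2⟩ := hC x hx hZx
      have hwx : eval (up K x) (lff (qw (a i) (a j))) ≠ 0 := by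
        rw [eval_lff]
        exact g1 1
      rw [Fin.sum_univ_three] at g2
      simp only [Matrix.cons_val] at g2
      push_cast at g2
      have t2 := mul_le_mul_of_nonneg_left (hB2 _ (up_ne hx) hwx) hw
      have habs := le_abs_self C
      have hh := logHeight_nonneg x
      rw [mul_add, mul_add] at g2
      rw [mul_add]
      linarith
    · exact ⟨∅, 0, le_rfl, fun d hd => absurd hd (Finset.notMem_empty _), fun h => absurd h hij⟩
  choose Z2 C2 hC20 hZ2 hC2 using h2
  have hS1 : 0 ≤ ∑ i, C1 i := Finset.sum_nonneg fun _ _ => hC10 _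
  have hS2 : 0 ≤ ∑ i, ∑ j, C2 i j :=
    Finset.sum_nonneg fun _ _ => Finset.sum_nonneg fun _ _ => hC20 _ _
  refine ⟨Finset.univ.biUnion Z1 ∪ Finset.univ.biUnion fun i => Finset.univ.biUnion (Z2 i),
    ∑ i, C1 i + ∑ i, ∑ j, C2 i j, by positivity, ?_, fun x hx hZx hu hD => ?_⟩
  · intro d hd
    rcases Finset.mem_union.1 hd with h | h
    · obtain ⟨i, -, h⟩ := Finset.mem_biUnion.1 h
      exact hZ1 i d h
    · obtain ⟨i, -, h⟩ := Finset.mem_biUnion.1 h
      obtain ⟨j, -, h⟩ := Finset.mem_biUnion.1 h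
      exact hZ2 i j d h
  · have k1 : ∀ i, C1 i ≤ ∑ i, C1 i + ∑ i, ∑ j, C2 i j := by
      intro i
      have := Finset.single_le_sum (f := C1) (fun _ _ => hC10 _) (Finset.mem_univ i)
      linarith
    have k2 : ∀ i j, C2 i j ≤ ∑ i, C1 i + ∑ i, ∑ j, C2 i j := by
      intro i j
      have := (Finset.single_le_sum (f := fun j => C2 i j) (fun _ _ => hC20 _ _)
        (Finset.mem_univ j)).trans (Finset.single_le_sum (f := fun i => ∑ j, C2 i j)
        (fun _ _ => Finset.sum_nonneg fun _ _ => hC20 _ _) (Finset.mem_univ i))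
      linarith
    have m1 : ∀ i, ∀ d ∈ Z1 i, ∑ j, d j * algebraMap k K (x j) ≠ 0 := fun i d hd =>
      hZx d (Finset.mem_union_left _ (Finset.mem_biUnion.2 ⟨i, Finset.mem_univ _, hd⟩))
    have m2 : ∀ i j, ∀ d ∈ Z2 i j, ∑ j, d j * algebraMap k K (x j) ≠ 0 := fun i j d hd =>
      hZx d (Finset.mem_union_right _ (Finset.mem_biUnion.2 ⟨i, Finset.mem_univ _,
        Finset.mem_biUnion.2 ⟨j, Finset.mem_univ _, hd⟩⟩))
    refine ⟨fun i => ?_, fun i j hij => ?_, fun i => ?_⟩
    · have := (hC1 i x hx (m1 i) hu hD).1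
      linarith [k1 i]
    · have := hC2 i j hij x hx (m2 i j)
      linarith [k2 i j]
    · have := (hC1 i x hx (m1 i) hu hD).2
      linarith [k1 i]

end main

end Pool.Agent.N830.VQ
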