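import Mathlib
import Pool.Agent.N830.VQ.B
import Pool.Agent.R405.Fin1

/-!
One place: the exceptional lines, and the theorem over a large field.
-/

set_option autoImplicit false
set_option linter.unusedSectionVars false

open Finset

namespace Pool.Agent.N830.VQ

open NumberField IsDedekindDomain Height Module MvPolynomial
open Pool.Agent.W180.OP (Pl av wt nrm le_nrm nrm_pos nrm_nonneg nrm_le exists_nrm lam lam_eq liou
  wt_nonneg cs min_lam sum_le_of_few abv_mv lam_smul eval_smul_hom)
open Pool.Agent.R405 (up up_ne lff lff_hom eval_lff lam_lff sch1 schLine rothLine nrm_up eval_up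
  lam_up liouS Good exists_good hom_of_map descend)

section pt

variable {k K : Type} [Field k] [Field K] [Algebra k K]

/-- a function which is invariant under scaling is bounded at a point of a line -/
theorem onPoint (Φ : (Fin 3 → k) → ℝ) (p : (Fin 3 → k) → Prop)
    (hΦ : ∀ x : Fin 3 → k, x ≠ 0 → p x → ∀ c : k, c ≠ 0 → Φ (c • x) = Φ x)
    (m : Fin 3 → k) (a : Fin 3) (ha' : m a ≠ 0) (e : Fin 2 → K) :
    ∃ C : ℝ, 0 ≤ C ∧ (e ≠ 0 → ∀ x : Fin 3 → k, x ≠ 0 →
      ∑ j, m j * x j = 0 → p x →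
      ∑ i, e i * algebraMap k K (x (a.succAbove i)) = 0 → Φ x ≤ C) := by
  classical
  by_cases h : e ≠ 0 ∧ ∃ x : Fin 3 → k, x ≠ 0 ∧ ∑ j, m j * x j = 0 ∧ p x ∧
    ∑ i, e i * algebraMap k K (x (a.succAbove i)) = 0
  · obtain ⟨he, x0, hx0, hmx0, hFx0, hex0⟩ := h
    refine ⟨|Φ x0|, abs_nonneg _, fun _ x hx hmx hFx hex => ?_⟩
    -- `x` and `x0` are proportional
    have hdet : x (a.succAbove 0) * x0 (a.succAbove 1) =
        x (a.succAbove 1) * x0 (a.succAbove 0) := by
      rw [Fin.sum_univ_two] at hex hex0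
      apply (algebraMap k K).injective
      rw [map_mul, map_mul]
      obtain ⟨i, hi'⟩ := Function.ne_iff.1 he
      fin_cases i
      · have h0 : e 0 ≠ 0 := hi'
        apply mul_left_cancel₀ h0
        linear_combination algebraMap k K (x0 (a.succAbove 1)) * hex -
          algebraMap k K (x (a.succAbove 1)) * hex0
      · have h0 : e 1 ≠ 0 := hi'
        apply mul_left_cancel₀ h0
        linear_combination algebraMap k K (x (a.succAbove 0)) * hex0 -
          algebraMap k K (x0 (a.succAbove 0)) * hex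
    have hxa : ∀ x : Fin 3 → k, ∑ j, m j * x j = 0 →
        m a * x a = -(m (a.succAbove 0) * x (a.succAbove 0) +
          m (a.succAbove 1) * x (a.succAbove 1)) := by
      intro x hmx
      rw [Fin.sum_univ_succAbove _ a, Fin.sum_univ_two] at hmx
      linear_combination hmx
    have hcov : ∀ j : Fin 3, j = a ∨ j = a.succAbove 0 ∨ j = a.succAbove 1 := by
      intro j
      by_cases hj : j = a
      · exact Or.inl hj
      · obtain ⟨i, hi'⟩ := Fin.exists_succAbove_eq hj
        fin_cases i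
        · exact Or.inr (Or.inl hi'.symm)
        · exact Or.inr (Or.inr hi'.symm)
    -- a nonzero coordinate of `x0` among the last two
    obtain ⟨i, hi0⟩ : ∃ i : Fin 2, x0 (a.succAbove i) ≠ 0 := by
      by_contra hcon
      push Not at hcon
      apply hx0
      funext j
      rcases hcov j with rfl | rfl | rfl
      · have h1 := hxa x0 hmx0
        rw [hcon 0, hcon 1, mul_zero, mul_zero, add_zero, neg_zero] at h1
        exact (mul_eq_zero.1 h1).resolve_left ha'
      · exact hcon 0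
      · exact hcon 1
    have hxx : x = (x (a.succAbove i) / x0 (a.succAbove i)) • x0 := by
      have h01 : ∀ i' : Fin 2, x (a.succAbove i') * x0 (a.succAbove i) =
          x (a.succAbove i) * x0 (a.succAbove i') := by
        intro i'
        fin_cases i <;> fin_cases i'
        · rfl
        · exact hdet.symm
        · exact hdet
        · rfl
      funext j
      rw [Pi.smul_apply, smul_eq_mul, div_mul_eq_mul_div, eq_div_iff hi0]
      rcases hcov j with rfl | rfl | rfl
      · apply mul_left_cancel₀ ha'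
        have e1 := hxa x hmx
        have e2 := hxa x0 hmx0
        have e3 := h01 0
        have e4 := h01 1
        linear_combination x0 (j.succAbove i) * e1 - x (j.succAbove i) * e2 -
          m (j.succAbove 0) * e3 - m (j.succAbove 1) * e4
      · exact h01 0
      · exact h01 1
    have hc0 : x (a.succAbove i) / x0 (a.succAbove i) ≠ 0 := by
      intro h
      apply hx
      rw [hxx, h, zero_smul]
    rw [hxx, hΦ x0 hx0 hFx0 _ hc0]
    exact le_abs_self _
  · refine ⟨0, le_rfl, fun he x hx hmx hFx hex => absurd ⟨he, x, hx, hmx, hFx, hex⟩ h⟩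

end pt

section main

variable {k K : Type} [Field k] [NumberField k] [Field K] [NumberField K] [Algebra k K]

/-- the total local height minus the bound -/
noncomputable def exc (v : Pl k) (f : AbsoluteValue K ℝ) {q : ℕ} (a : Fin q → Fin 2 → K) (ε : ℝ)
    (x : Fin 3 → k) : ℝ :=
  wt v * (∑ i, lam f 1 (lff (qa (a i))) (up K x) + lam f 2 (DD K) (up K x)) -
    (4 + ε) * logHeight x

theorem exc_smul (v : Pl k) (f : AbsoluteValue K ℝ) {q : ℕ} (a : Fin q → Fin 2 → K) (ε : ℝ)
    (x : Fin 3 → k) (hx : x ≠ 0) (hu : ∀ i, eval (up K x) (lff (qa (a i))) ≠ 0)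
    (hD : eval x (DD k) ≠ 0) (c : k) (hc : c ≠ 0) : exc v f a ε (c • x) = exc v f a ε x := by
  have hcK : algebraMap k K c ≠ 0 := by rwa [Ne, map_eq_zero]
  have hup : up K (c • x) = algebraMap k K c • up K x := by
    funext j
    simp [up]
  have hDK : eval (up K x) (DD K) ≠ 0 := by
    rw [DD_up, Ne, map_eq_zero]
    exact hD
  unfold exc
  rw [logHeight_smul_eq_logHeight _ hc, hup, lam_smul f _ DD_hom _ hcK _ (up_ne hx) hDK]
  congr 3
  exact Finset.sum_congr rfl fun i _ => lam_smul f _ (lff_hom _) _ hcK _ (up_ne hx) (hu i)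

/-- the points of a line -/
theorem onLine [IsGalois ℚ K] (hi : ∃ z : K, z ^ 2 = -1) (v : Pl k)
    (f : AbsoluteValue K ℝ) (hf : Good v f) {q : ℕ} (a : Fin q → Fin 2 → K)
    (hd : ∀ i j, i ≠ j → det2 (a i) (a j) ≠ 0) (ε : ℝ) (hε : 0 < ε)
    (m : Fin 3 → k) (hm : m ≠ 0) :
    ∃ C : ℝ, 0 ≤ C ∧ ∀ x : Fin 3 → k, x ≠ 0 → ∑ j, m j * x j = 0 →
      (∀ i, eval (up K x) (lff (qa (a i))) ≠ 0) → eval x (DD k) ≠ 0 → exc v f a ε x ≤ C := by
  classical
  have hw := wt_nonneg v
  obtain ⟨s, hs⟩ := Function.ne_iff.1 hm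
  have hs' : m s ≠ 0 := hs
  have hr := fun i => rothLine hi v f hf m s hs' (lff_hom (qa (a i))) (ε / 2) (half_pos hε)
  choose Z C hC0 hZ hC using hr
  obtain ⟨CD, hCD0, hCD⟩ := liouD (K := K) v
  obtain ⟨B, hB0, hB⟩ := combine f a hd
  have hSC : 0 ≤ ∑ i, C i := Finset.sum_nonneg fun _ _ => hC0 _
  have hpt := fun e : Fin 2 → K => onPoint (exc v f a ε)
    (fun x => (∀ i, eval (up K x) (lff (qa (a i))) ≠ 0) ∧ eval x (DD k) ≠ 0)
    (fun x hx hp c hc => exc_smul v f a ε x hx hp.1 hp.2 c hc) m s hs' e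
  choose C3 hC30 hC3 using hpt
  set Z' : Finset (Fin 2 → K) := Finset.univ.biUnion Z with hZ'
  have hs0 : 0 ≤ ∑ e ∈ Z', C3 e := Finset.sum_nonneg fun e _ => hC30 e
  refine ⟨(2 * ∑ i, C i + CD) + wt v * B + ∑ e ∈ Z', C3 e, by positivity,
    fun x hx hmx hu hD => ?_⟩
  by_cases h : ∀ e ∈ Z', ∑ i, e i * algebraMap k K (x (s.succAbove i)) ≠ 0
  · have hh := logHeight_nonneg x
    have k1 : ∀ i, wt v * lam f 1 (lff (qa (a i))) (up K x) ≤
        (2 + ε / 2) * logHeight x + ∑ i, C i := by
      intro i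
      have h1 := hC i x hx hmx (fun e he => h e (Finset.mem_biUnion.2 ⟨i, Finset.mem_univ _, he⟩))
        (hu i)
      have h2 := Finset.single_le_sum (f := C) (fun _ _ => hC0 _) (Finset.mem_univ i)
      linarith
    have k2 := hCD f hf x hx hD
    have hεh : 0 ≤ ε * logHeight x := mul_nonneg hε.le hh
    have hDK : eval (up K x) (DD K) ≠ 0 := by
      rw [DD_up, Ne, map_eq_zero]
      exact hD
    have h5 := hB (up K x) (up_ne hx) hu hDK (wt v)
      ((4 + ε) * logHeight x + (2 * ∑ i, C i + CD)) hw (by positivity) (by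
        intro i
        have := k1 i
        linarith) (by linarith) (by
        intro i j _
        have h6 := k1 i
        have h7 := k1 j
        rw [mul_add]
        linarith) (by
        intro i
        have h6 := k1 i
        rw [mul_add]
        linarith)
    unfold exc
    linarith
  · push Not at h
    obtain ⟨e, he, hex⟩ := h
    have he0 : e ≠ 0 := by
      obtain ⟨i, -, he'⟩ := Finset.mem_biUnion.1 he
      exact hZ i e he'
    have h1 := hC3 e he0 x hx hmx ⟨hu, hD⟩ hex
    have h2 : C3 e ≤ ∑ e ∈ Z', C3 e := Finset.single_le_sum (f := C3) (fun e _ => hC30 e) he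
    have h3 : 0 ≤ wt v * B := mul_nonneg hw hB0
    linarith

/-- one place, over a large field -/
theorem oneK [IsGalois ℚ K] (hi : ∃ z : K, z ^ 2 = -1) (v : Pl k)
    (f : AbsoluteValue K ℝ) (hf : Good v f) {q : ℕ} (a : Fin q → Fin 2 → K)
    (ha : ∀ i, a i ≠ 0) (hd : ∀ i j, i ≠ j → det2 (a i) (a j) ≠ 0) (ε : ℝ) (hε : 0 < ε) :
    ∃ C : ℝ, 0 ≤ C ∧ ∀ x : Fin 3 → k, x ≠ 0 →
      (∀ i, eval (up K x) (lff (qa (a i))) ≠ 0) → eval x (DD k) ≠ 0 → exc v f a ε x ≤ C := by
  classical
  have hw := wt_nonneg v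
  have hfd : FiniteDimensional k K := Module.Finite.of_restrictScalars_finite ℚ k K
  obtain ⟨Z, C0, hC00, hZ, hC0⟩ := generic hi v f hf a ha hd ε hε
  obtain ⟨CD, hCD0, hCD⟩ := liouD (K := K) v
  obtain ⟨B, hB0, hB⟩ := combine f a hd
  have hline : ∀ g : Fin 3 → K, ∃ C : ℝ, 0 ≤ C ∧ (g ≠ 0 → ∀ x : Fin 3 → k, x ≠ 0 →
      ∑ j, g j * algebraMap k K (x j) = 0 →
      (∀ i, eval (up K x) (lff (qa (a i))) ≠ 0) → eval x (DD k) ≠ 0 → exc v f a ε x ≤ C) := by
    intro g
    by_cases hg : g = 0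
    · exact ⟨0, le_rfl, fun h => absurd hg h⟩
    obtain ⟨m, hm, hmx⟩ := descend (k := k) g hg
    obtain ⟨C, hC0, hC⟩ := onLine hi v f hf a hd ε hε m hm
    refine ⟨C, hC0, fun _ x hx hgx hu hD => hC x hx ?_ hu hD⟩
    by_contra h
    exact hmx x h hgx
  choose C1 hC10 hC1 using hline
  have hs0 : 0 ≤ ∑ e ∈ Z, C1 e := Finset.sum_nonneg fun e _ => hC10 e
  refine ⟨(C0 + CD) + wt v * B + ∑ g ∈ Z, C1 g, by positivity, fun x hx hu hD => ?_⟩
  by_cases h : ∀ g ∈ Z, ∑ j, g j * algebraMap k K (x j) ≠ 0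
  · have hh := logHeight_nonneg x
    obtain ⟨k1, k2, k3⟩ := hC0 x hx h hu hD
    have k4 := hCD f hf x hx hD
    have hεh : 0 ≤ ε * logHeight x := mul_nonneg hε.le hh
    have hDK : eval (up K x) (DD K) ≠ 0 := by
      rw [DD_up, Ne, map_eq_zero]
      exact hD
    have h5 := hB (up K x) (up_ne hx) hu hDK (wt v)
      ((4 + ε) * logHeight x + (C0 + CD)) hw (by positivity) (by
        intro i
        have := k1 i
        linarith) (by linarith) (by
        intro i j hij
        have h6 := k2 i j hij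
        linarith) (by
        intro i
        have h6 := k3 i
        linarith)
    unfold exc
    linarith
  · push Not at h
    obtain ⟨g, hg, hgx⟩ := h
    have h1 := hC1 g (hZ g hg) x hx hgx hu hD
    have h2 : C1 g ≤ ∑ e ∈ Z, C1 e := Finset.single_le_sum (f := C1) (fun e _ => hC10 e) hg
    have h3 : 0 ≤ wt v * B := mul_nonneg hw hB0
    linarith

end main

end Pool.Agent.N830.VQ
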