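import Mathlib
import Pool.Agent.R405.Tang

/-!
Forms of degree `N` in three variables, and a basis adapted to two tangent lines of a conic.
-/

set_option autoImplicit false
set_option linter.unusedSectionVars false

open Finset

namespace Pool.Agent.N830.VQ

open MvPolynomial
open Pool.Agent.R405 (lff lff_hom eval_lff)

/-- the exponents of degree `N` -/
abbrev Ix (N : ℕ) : Type := {e : Fin 3 → Fin (N + 1) // ∑ i, (e i : ℕ) = N}

/-- the exponent `(a, b, c)` -/
def mk3 (N a b c : ℕ) (h : a + b + c = N) : Ix N :=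
  ⟨![⟨a, by omega⟩, ⟨b, by omega⟩, ⟨c, by omega⟩], by
    rw [Fin.sum_univ_three]
    simp only [Matrix.cons_val]
    exact h⟩

theorem mk3_0 (N a b c : ℕ) (h : a + b + c = N) : ((mk3 N a b c h).1 0 : ℕ) = a := rfl
theorem mk3_1 (N a b c : ℕ) (h : a + b + c = N) : ((mk3 N a b c h).1 1 : ℕ) = b := rfl
theorem mk3_2 (N a b c : ℕ) (h : a + b + c = N) : ((mk3 N a b c h).1 2 : ℕ) = c := rfl

theorem ix_sum {N : ℕ} (e : Ix N) : (e.1 0 : ℕ) + e.1 1 + e.1 2 = N := by
  have := e.2
  rw [Fin.sum_univ_three] at this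
  exact this

/-- permuting the exponents -/
def perm {N : ℕ} (σ : Equiv.Perm (Fin 3)) : Ix N ≃ Ix N where
  toFun e := ⟨e.1 ∘ σ, by
    have := Equiv.sum_comp σ (fun i => (e.1 i : ℕ))
    simp only [Function.comp_apply]
    rw [this]
    exact e.2⟩
  invFun e := ⟨e.1 ∘ σ.symm, by
    have := Equiv.sum_comp σ.symm (fun i => (e.1 i : ℕ))
    simp only [Function.comp_apply]
    rw [this]
    exact e.2⟩
  left_inv e := by
    apply Subtype.ext
    funext i
    simp
  right_inv e := by
    apply Subtype.ext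
    funext i
    simp

/-- the sum of one exponent -/
theorem sum_exp (N : ℕ) (i : Fin 3) : 3 * ∑ e : Ix N, (e.1 i : ℕ) = N * Fintype.card (Ix N) := by
  have h1 : ∀ j : Fin 3, ∑ e : Ix N, (e.1 j : ℕ) = ∑ e : Ix N, (e.1 i : ℕ) := by
    intro j
    rw [← Equiv.sum_comp (perm (N := N) (Equiv.swap i j)) (fun e : Ix N => (e.1 j : ℕ))]
    refine Finset.sum_congr rfl fun e _ => ?_
    show ((e.1 ∘ (Equiv.swap i j)) j : ℕ) = _
    rw [Function.comp_apply, Equiv.swap_apply_right]
  have h2 : ∑ e : Ix N, ∑ j, (e.1 j : ℕ) = N * Fintype.card (Ix N) := by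
    rw [Finset.sum_congr rfl fun e _ => e.2, Finset.sum_const, Finset.card_univ, smul_eq_mul,
      mul_comm]
  rw [Finset.sum_comm, Fin.sum_univ_three, h1 0, h1 1, h1 2] at h2
  omega

section ring

variable {F : Type} [Field F]

/-- the adapted forms -/
noncomputable def GG (u w z : MvPolynomial (Fin 3) F) (a b c : ℕ) : MvPolynomial (Fin 3) F :=
  u ^ a * ((w ^ 2 - 4 * u * z) ^ (b / 2) * w ^ (b % 2)) * z ^ c

/-- their span -/
noncomputable def SG (u w z : MvPolynomial (Fin 3) F) (N : ℕ) :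
    Submodule F (MvPolynomial (Fin 3) F) :=
  Submodule.span F {p | ∃ a b c, a + b + c = N ∧ p = GG u w z a b c}

theorem GG_mem (u w z : MvPolynomial (Fin 3) F) {a b c N : ℕ} (h : a + b + c = N) :
    GG u w z a b c ∈ SG u w z N := Submodule.subset_span ⟨a, b, c, h, rfl⟩

theorem SG_mul (u w z p : MvPolynomial (Fin 3) F) (N : ℕ)
    (hp : ∀ a b c, a + b + c = N → p * GG u w z a b c ∈ SG u w z (N + 1))
    {g : MvPolynomial (Fin 3) F} (hg : g ∈ SG u w z N) : p * g ∈ SG u w z (N + 1) := by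
  have h : SG u w z N ≤ (SG u w z (N + 1)).comap (LinearMap.mulLeft F p) := by
    refine Submodule.span_le.2 ?_
    rintro _ ⟨a, b, c, h, rfl⟩
    exact hp a b c h
  exact h hg

theorem SG_u (u w z : MvPolynomial (Fin 3) F) (N : ℕ) {g : MvPolynomial (Fin 3) F}
    (hg : g ∈ SG u w z N) : u * g ∈ SG u w z (N + 1) := by
  refine SG_mul u w z u N (fun a b c h => ?_) hg
  have : u * GG u w z a b c = GG u w z (a + 1) b c := by
    unfold GG
    ring
  rw [this]
  exact GG_mem _ _ _ (by omega)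

theorem SG_z (u w z : MvPolynomial (Fin 3) F) (N : ℕ) {g : MvPolynomial (Fin 3) F}
    (hg : g ∈ SG u w z N) : z * g ∈ SG u w z (N + 1) := by
  refine SG_mul u w z z N (fun a b c h => ?_) hg
  have : z * GG u w z a b c = GG u w z a b (c + 1) := by
    unfold GG
    ring
  rw [this]
  exact GG_mem _ _ _ (by omega)

theorem SG_w (u w z : MvPolynomial (Fin 3) F) (N : ℕ) {g : MvPolynomial (Fin 3) F}
    (hg : g ∈ SG u w z N) : w * g ∈ SG u w z (N + 1) := by
  refine SG_mul u w z w N (fun a b c h => ?_) hg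
  rcases Nat.even_or_odd' b with ⟨s, rfl | rfl⟩
  · have e1 : (2 * s) / 2 = s := by omega
    have e2 : (2 * s) % 2 = 0 := by omega
    have e3 : (2 * s + 1) / 2 = s := by omega
    have e4 : (2 * s + 1) % 2 = 1 := by omega
    have : w * GG u w z a (2 * s) c = GG u w z a (2 * s + 1) c := by
      unfold GG
      rw [e1, e2, e3, e4]
      ring
    rw [this]
    exact GG_mem _ _ _ (by omega)
  · have e1 : (2 * s + 1) / 2 = s := by omega
    have e2 : (2 * s + 1) % 2 = 1 := by omega
    have e3 : (2 * s + 2) / 2 = s + 1 := by omega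
    have e4 : (2 * s + 2) % 2 = 0 := by omega
    have e5 : (2 * s) / 2 = s := by omega
    have e6 : (2 * s) % 2 = 0 := by omega
    have : w * GG u w z a (2 * s + 1) c = GG u w z a (2 * s + 2) c +
        (4 : F) • GG u w z (a + 1) (2 * s) (c + 1) := by
      unfold GG
      rw [e1, e2, e3, e4, e5, e6, Algebra.smul_def, map_ofNat]
      ring
    rw [this]
    exact Submodule.add_mem _ (GG_mem _ _ _ (by omega))
      (Submodule.smul_mem _ _ (GG_mem _ _ _ (by omega)))

/-- multiplication by a combination -/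
theorem SG_comb (u w z x : MvPolynomial (Fin 3) F) (r s t : F) (hx : x = r • u + s • w + t • z)
    (N : ℕ) {g : MvPolynomial (Fin 3) F} (hg : g ∈ SG u w z N) : x * g ∈ SG u w z (N + 1) := by
  rw [hx, add_mul, add_mul, smul_mul_assoc, smul_mul_assoc, smul_mul_assoc]
  exact Submodule.add_mem _ (Submodule.add_mem _ (Submodule.smul_mem _ _ (SG_u _ _ _ _ hg))
    (Submodule.smul_mem _ _ (SG_w _ _ _ _ hg))) (Submodule.smul_mem _ _ (SG_z _ _ _ _ hg))

/-- the monomials are in the span -/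
theorem mono_mem (u w z : MvPolynomial (Fin 3) F)
    (hX : ∀ i : Fin 3, ∃ r s t : F, (X i : MvPolynomial (Fin 3) F) = r • u + s • w + t • z)
    (a b c : ℕ) : (X 0 : MvPolynomial (Fin 3) F) ^ a * X 1 ^ b * X 2 ^ c ∈
      SG u w z (a + b + c) := by
  have hstep : ∀ (i : Fin 3) (m N : ℕ) (g : MvPolynomial (Fin 3) F), g ∈ SG u w z N →
      X i ^ m * g ∈ SG u w z (N + m) := by
    intro i m N g hg
    obtain ⟨r, s, t, h⟩ := hX i
    induction m with
    | zero => simpa using hg
    | succ m ih =>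
      have h1 := SG_comb u w z (X i) r s t h (N + m) ih
      have h2 : X i * (X i ^ m * g) = X i ^ (m + 1) * g := by ring
      rw [h2] at h1
      exact h1
  have h0 : (1 : MvPolynomial (Fin 3) F) ∈ SG u w z 0 := by
    have : (1 : MvPolynomial (Fin 3) F) = GG u w z 0 0 0 := by simp [GG]
    rw [this]
    exact GG_mem _ _ _ (by omega)
  have h1 := hstep 0 a _ _ (hstep 1 b _ _ (hstep 2 c _ _ h0))
  have h2 : (X 0 : MvPolynomial (Fin 3) F) ^ a * (X 1 ^ b * (X 2 ^ c * 1)) =
      X 0 ^ a * X 1 ^ b * X 2 ^ c := by ring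
  rw [h2] at h1
  have h3 : 0 + c + b + a = a + b + c := by omega
  rw [h3] at h1
  exact h1

/-- the span of the monomials -/
noncomputable def SM (F : Type) [Field F] (N : ℕ) : Submodule F (MvPolynomial (Fin 3) F) :=
  Submodule.span F {p | ∃ a b c, a + b + c = N ∧ p = X 0 ^ a * X 1 ^ b * X 2 ^ c}

theorem SM_X (i : Fin 3) (N : ℕ) {g : MvPolynomial (Fin 3) F} (hg : g ∈ SM F N) :
    X i * g ∈ SM F (N + 1) := by
  have h : SM F N ≤ (SM F (N + 1)).comap (LinearMap.mulLeft F (X i)) := by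
    refine Submodule.span_le.2 ?_
    rintro _ ⟨a, b, c, h, rfl⟩
    apply Submodule.subset_span
    fin_cases i
    · exact ⟨a + 1, b, c, by omega, by
        simp only [LinearMap.mulLeft_apply, Fin.zero_eta]
        ring⟩
    · exact ⟨a, b + 1, c, by omega, by
        simp only [LinearMap.mulLeft_apply, Fin.mk_one]
        ring⟩
    · exact ⟨a, b, c + 1, by omega, by
        simp only [LinearMap.mulLeft_apply, Fin.reduceFinMk]
        ring⟩
  exact h hg

theorem SM_lff (g : Fin 3 → F) (N : ℕ) {p : MvPolynomial (Fin 3) F} (hp : p ∈ SM F N) :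
    lff g * p ∈ SM F (N + 1) := by
  unfold lff
  rw [Finset.sum_mul]
  refine Submodule.sum_mem _ fun i _ => ?_
  rw [mul_assoc, ← smul_eq_C_mul]
  exact Submodule.smul_mem _ _ (SM_X i N hp)

theorem SM_pow (g : Fin 3 → F) (m N : ℕ) {p : MvPolynomial (Fin 3) F} (hp : p ∈ SM F N) :
    lff g ^ m * p ∈ SM F (N + m) := by
  induction m with
  | zero => simpa using hp
  | succ m ih =>
    have h1 := SM_lff g (N + m) ih
    have h2 : lff g * (lff g ^ m * p) = lff g ^ (m + 1) * p := by ring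
    rw [h2] at h1
    exact h1

theorem SM_quad (u w z : Fin 3 → F) (N : ℕ) {p : MvPolynomial (Fin 3) F} (hp : p ∈ SM F N) :
    (lff w ^ 2 - 4 * lff u * lff z) * p ∈ SM F (N + 2) := by
  have h1 := SM_pow w 2 N hp
  have h2 := SM_lff u (N + 1) (SM_lff z N hp)
  have h3 : (lff w ^ 2 - 4 * lff u * lff z) * p =
      lff w ^ 2 * p - (4 : F) • (lff u * (lff z * p)) := by
    rw [Algebra.smul_def, map_ofNat]
    ring
  rw [h3]
  exact Submodule.sub_mem _ h1 (Submodule.smul_mem _ _ h2)

theorem SM_quadpow (u w z : Fin 3 → F) (m N : ℕ) {p : MvPolynomial (Fin 3) F}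
    (hp : p ∈ SM F N) : (lff w ^ 2 - 4 * lff u * lff z) ^ m * p ∈ SM F (N + 2 * m) := by
  induction m with
  | zero => simpa using hp
  | succ m ih =>
    have h1 := SM_quad u w z (N + 2 * m) ih
    have h2 : (lff w ^ 2 - 4 * lff u * lff z) * ((lff w ^ 2 - 4 * lff u * lff z) ^ m * p) =
      (lff w ^ 2 - 4 * lff u * lff z) ^ (m + 1) * p := by ring
    rw [h2] at h1
    exact h1

theorem GG_mono (u w z : Fin 3 → F) {a b c N : ℕ} (h : a + b + c = N) :
    GG (lff u) (lff w) (lff z) a b c ∈ SM F N := by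
  have h0 : (1 : MvPolynomial (Fin 3) F) ∈ SM F 0 :=
    Submodule.subset_span ⟨0, 0, 0, rfl, by simp⟩
  have h1 := SM_pow u a _ (SM_quadpow u w z (b / 2) _ (SM_pow w (b % 2) _ (SM_pow z c _ h0)))
  have h2 : lff u ^ a * ((lff w ^ 2 - 4 * lff u * lff z) ^ (b / 2) * (lff w ^ (b % 2) *
      (lff z ^ c * 1))) = GG (lff u) (lff w) (lff z) a b c := by
    unfold GG
    ring
  rw [h2] at h1
  have h3 : 0 + c + b % 2 + 2 * (b / 2) + a = N := by omega
  rw [h3] at h1
  exact h1

/-- the monomial with a given exponent -/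
noncomputable def mo (F : Type) [Field F] {N : ℕ} (e : Ix N) : MvPolynomial (Fin 3) F :=
  X 0 ^ (e.1 0 : ℕ) * X 1 ^ (e.1 1 : ℕ) * X 2 ^ (e.1 2 : ℕ)

theorem SM_eq (N : ℕ) : SM F N = Submodule.span F (Set.range (mo F (N := N))) := by
  unfold SM
  congr 1
  ext p
  constructor
  · rintro ⟨a, b, c, h, rfl⟩
    exact ⟨mk3 N a b c h, rfl⟩
  · rintro ⟨e, rfl⟩
    exact ⟨_, _, _, ix_sum e, rfl⟩

/-- the adapted form with a given exponent -/
noncomputable def ga (u w z : Fin 3 → F) {N : ℕ} (e : Ix N) : MvPolynomial (Fin 3) F :=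
  GG (lff u) (lff w) (lff z) (e.1 0) (e.1 1) (e.1 2)

theorem SG_eq (u w z : Fin 3 → F) (N : ℕ) : SG (lff u) (lff w) (lff z) N =
    Submodule.span F (Set.range (ga u w z (N := N))) := by
  unfold SG
  congr 1
  ext p
  constructor
  · rintro ⟨a, b, c, h, rfl⟩
    exact ⟨mk3 N a b c h, rfl⟩
  · rintro ⟨e, rfl⟩
    exact ⟨_, _, _, ix_sum e, rfl⟩

theorem mo_li (N : ℕ) : LinearIndependent F (mo F (N := N)) := by
  have h1 := (basisMonomials (Fin 3) F).linearIndependent
  let φ : Ix N → (Fin 3 →₀ ℕ) := fun e => Finsupp.equivFunOnFinite.symm fun i => (e.1 i : ℕ)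
  have hφ : Function.Injective φ := by
    intro e e' h
    have h2 : (fun i => (e.1 i : ℕ)) = fun i => (e'.1 i : ℕ) :=
      Finsupp.equivFunOnFinite.symm.injective h
    apply Subtype.ext
    funext i
    exact Fin.ext (congrFun h2 i)
  have h2 := h1.comp φ hφ
  have h3 : (⇑(basisMonomials (Fin 3) F) ∘ φ) = mo F (N := N) := by
    funext e
    rw [Function.comp_apply, coe_basisMonomials]
    show monomial (φ e) (1 : F) = _
    rw [monomial_eq, map_one, one_mul, Finsupp.prod_fintype _ _ (fun _ => pow_zero _),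
      Fin.prod_univ_three]
    rfl
  rw [h3] at h2
  exact h2

/-- the matrix of the adapted forms -/
theorem exists_matrix (u w z : Fin 3 → F) (hdet : (Matrix.of ![u, w, z]).det ≠ 0) (N : ℕ) :
    ∃ A : Matrix (Ix N) (Ix N) F, A.det ≠ 0 ∧ ∀ e, ga u w z e = ∑ e', A e e' • mo F e' := by
  classical
  have hX : ∀ i : Fin 3, ∃ r s t : F, (X i : MvPolynomial (Fin 3) F) =
      r • lff u + s • lff w + t • lff z := by
    intro i
    set M := Matrix.of ![u, w, z] with hM
    have hMM : M⁻¹ * M = 1 := Matrix.nonsing_inv_mul M (Ne.isUnit hdet)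
    refine ⟨M⁻¹ i 0, M⁻¹ i 1, M⁻¹ i 2, ?_⟩
    have h1 : ∀ j, M⁻¹ i 0 * u j + M⁻¹ i 1 * w j + M⁻¹ i 2 * z j =
        (1 : Matrix (Fin 3) (Fin 3) F) i j := by
      intro j
      rw [← hMM, Matrix.mul_apply, Fin.sum_univ_three]
      rfl
    have h2 : M⁻¹ i 0 • lff u + M⁻¹ i 1 • lff w + M⁻¹ i 2 • lff z =
        lff fun j => M⁻¹ i 0 * u j + M⁻¹ i 1 * w j + M⁻¹ i 2 * z j := by
      unfold lff
      rw [Finset.smul_sum, Finset.smul_sum, Finset.smul_sum, ← Finset.sum_add_distrib,
        ← Finset.sum_add_distrib]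
      refine Finset.sum_congr rfl fun j _ => ?_
      simp only [smul_eq_C_mul, map_add, map_mul]
      ring
    rw [h2]
    have h3 : (fun j => M⁻¹ i 0 * u j + M⁻¹ i 1 * w j + M⁻¹ i 2 * z j) =
        fun j => if i = j then (1 : F) else 0 := by
      funext j
      rw [h1, Matrix.one_apply]
    rw [h3]
    unfold lff
    rw [Finset.sum_eq_single i]
    · simp
    · intro j _ hj
      simp [Ne.symm hj]
    · intro h
      exact absurd (Finset.mem_univ _) h
  have hA : ∀ e : Ix N, ∃ c : Ix N → F, ∑ e', c e' • mo F e' = ga u w z e := by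
    intro e
    have h1 : ga u w z e ∈ SM F N := GG_mono u w z (ix_sum e)
    rw [SM_eq] at h1
    exact (Submodule.mem_span_range_iff_exists_fun F).1 h1
  have hB : ∀ e : Ix N, ∃ c : Ix N → F, ∑ e', c e' • ga u w z e' = mo F e := by
    intro e
    have h1 : mo F e ∈ SG (lff u) (lff w) (lff z) ((e.1 0 : ℕ) + e.1 1 + e.1 2) :=
      mono_mem _ _ _ hX _ _ _
    rw [ix_sum, SG_eq] at h1
    exact (Submodule.mem_span_range_iff_exists_fun F).1 h1
  choose A hA using hA
  choose B hB using hB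
  refine ⟨Matrix.of A, ?_, fun e => (hA e).symm⟩
  have hBA : Matrix.of B * Matrix.of A = 1 := by
    ext e e'
    rw [Matrix.mul_apply]
    have h1 : ∑ e', (∑ s, B e s * A s e') • mo F e' = ∑ e', (1 : Matrix (Ix N) (Ix N) F) e e' •
        mo F e' := by
      have h2 : ∑ e', (1 : Matrix (Ix N) (Ix N) F) e e' • mo F e' = mo F e := by
        rw [Finset.sum_eq_single e]
        · rw [Matrix.one_apply_eq, one_smul]
        · intro j _ hj
          rw [Matrix.one_apply_ne (Ne.symm hj), zero_smul]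
        · intro h
          exact absurd (Finset.mem_univ _) h
      rw [h2, ← hB e]
      simp only [← hA, Finset.smul_sum, Finset.sum_smul, smul_smul]
      rw [Finset.sum_comm]
    have h3 := (Fintype.linearIndependent_iff.1 (mo_li (F := F) N))
      (fun e' => (∑ s, B e s * A s e') - (1 : Matrix (Ix N) (Ix N) F) e e') (by
        simp only [sub_smul, Finset.sum_sub_distrib]
        rw [h1, sub_self]) e'
    exact sub_eq_zero.1 h3
  intro h0
  have h1 := congrArg Matrix.det hBA
  rw [Matrix.det_mul, h0, mul_zero, Matrix.det_one] at h1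
  exact zero_ne_one h1

end ring

end Pool.Agent.N830.VQ
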