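import Mathlib
import Pool.Agent.N830.VQ.B
import Pool.Agent.N830.VQ.D
import Pool.Agent.R405.SchV

/-!
Several places, off finitely many curves.
-/

set_option autoImplicit false
set_option linter.unusedSectionVars false

open Finset

namespace Pool.Agent.N830.VQ

open NumberField IsDedekindDomain Height Module MvPolynomial
open Pool.Agent.W180.OP (Pl av wt nrm le_nrm nrm_pos nrm_nonneg nrm_le exists_nrm lam lam_eq liou
  wt_nonneg cs min_lam sum_le_of_few abv_mv lam_smul eval_smul_hom)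
open Pool.Agent.R405 (up up_ne lff lff_hom eval_lff lam_lff nrm_up eval_up
  lam_up Good exists_good hom_of_map descend schV dot exv)

section loc

variable {F : Type} [Field F]

theorem eval_ga (u w z : Fin 3 → F) {N : ℕ} (e : Ix N) (x : Fin 3 → F) :
    eval x (ga u w z e) = (∑ j, u j * x j) ^ (e.1 0 : ℕ) *
      (((∑ j, w j * x j) ^ 2 - 4 * (∑ j, u j * x j) * (∑ j, z j * x j)) ^ ((e.1 1 : ℕ) / 2) *
        (∑ j, w j * x j) ^ ((e.1 1 : ℕ) % 2)) * (∑ j, z j * x j) ^ (e.1 2 : ℕ) := by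
  unfold ga GG
  simp only [map_mul, map_pow, map_sub, eval_lff, map_ofNat]

/-- the sum of the local heights of the adapted forms -/
theorem loc_sum (f : AbsoluteValue F ℝ) {a b : Fin 2 → F} (h : det2 a b ≠ 0) (N : ℕ) :
    ∃ B : ℝ, 0 ≤ B ∧ ∀ x : Fin 3 → F, x ≠ 0 → eval x (lff (qa a)) ≠ 0 →
      eval x (lff (qa b)) ≠ 0 → eval x (DD F) ≠ 0 → eval x (lff (qw a b)) ≠ 0 →
      ((N : ℝ) * Fintype.card (Ix N) / 3) * (lam f 1 (lff (qa a)) x + lam f 1 (lff (qa b)) x +
        lam f 2 (DD F) x / 2) ≤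
      ∑ e : Ix N, ((N : ℝ) * Real.log (nrm f x) -
        Real.log (f (eval x (ga (qa a) (qw a b) (qa b) e)))) +
      (Fintype.card (Ix N) : ℝ) / 2 * max 0 (lam f 2 (DD F) x) + B := by
  obtain ⟨B1, hB10, hB1⟩ := lam_ge f (lff_hom (qw a b))
  set n : ℝ := (Fintype.card (Ix N) : ℝ) with hn
  have hn0 : 0 ≤ n := Nat.cast_nonneg _
  set δ : ℝ := |Real.log (f (det2 a b))| with hδ
  have hδ0 : 0 ≤ δ := abs_nonneg _
  refine ⟨n * B1 + 2 * N * n * δ, by positivity, fun x hx hu hz hD hw => ?_⟩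
  have hW := hB1 x hx hw
  set U := lam f 1 (lff (qa a)) x with hU'
  set V := lam f 1 (lff (qa b)) x with hV'
  set W := lam f 1 (lff (qw a b)) x with hW'
  set D := lam f 2 (DD F) x with hD'
  have eU : Real.log (f (∑ j, qa a j * x j)) = Real.log (nrm f x) - U := by
    rw [hU', lam_eq f _ _ hx hu, eval_lff]
    push_cast
    ring
  have eV : Real.log (f (∑ j, qa b j * x j)) = Real.log (nrm f x) - V := by
    rw [hV', lam_eq f _ _ hx hz, eval_lff]
    push_cast
    ring
  have eW : Real.log (f (∑ j, qw a b j * x j)) = Real.log (nrm f x) - W := by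
    rw [hW', lam_eq f _ _ hx hw, eval_lff]
    push_cast
    ring
  have eD : Real.log (f (x 1 ^ 2 - 4 * x 0 * x 2)) = 2 * Real.log (nrm f x) - D := by
    rw [hD', lam_eq f _ _ hx hD, eval_DD]
    push_cast
    ring
  rw [eval_lff] at hu hz hw
  rw [eval_DD] at hD
  have hfu := (f.pos_iff.2 hu).ne'
  have hfz := (f.pos_iff.2 hz).ne'
  have hfw := (f.pos_iff.2 hw).ne'
  have hfD := (f.pos_iff.2 hD).ne'
  have hfd := (f.pos_iff.2 h).ne'
  have hterm : ∀ e : Ix N, (N : ℝ) * Real.log (nrm f x) -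
      Real.log (f (eval x (ga (qa a) (qw a b) (qa b) e))) =
      ((e.1 0 : ℕ) : ℝ) * U + (((e.1 1 : ℕ) / 2 : ℕ) : ℝ) * (D - 2 * Real.log (f (det2 a b))) +
        (((e.1 1 : ℕ) % 2 : ℕ) : ℝ) * W + ((e.1 2 : ℕ) : ℝ) * V := by
    intro e
    rw [eval_ga, disc_id]
    simp only [map_mul, map_pow]
    rw [Real.log_mul (by positivity) (by positivity), Real.log_mul (by positivity) (by positivity),
      Real.log_mul (by positivity) (by positivity), Real.log_pow, Real.log_pow, Real.log_pow,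
      Real.log_pow, Real.log_mul (by positivity) hfD, Real.log_pow, eU, eV, eW, eD]
    have h1 : (N : ℝ) = ((e.1 0 : ℕ) : ℝ) + (2 * (((e.1 1 : ℕ) / 2 : ℕ) : ℝ) +
        (((e.1 1 : ℕ) % 2 : ℕ) : ℝ)) + ((e.1 2 : ℕ) : ℝ) := by
      have h2 := ix_sum e
      have h3 : (e.1 1 : ℕ) = 2 * ((e.1 1 : ℕ) / 2) + (e.1 1 : ℕ) % 2 := by omega
      have h4 : N = (e.1 0 : ℕ) + (2 * ((e.1 1 : ℕ) / 2) + (e.1 1 : ℕ) % 2) + (e.1 2 : ℕ) := by
        omega
      exact_mod_cast h4
    rw [h1]
    push_cast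
    ring
  simp only [hterm]
  have hs : ∀ i : Fin 3, ∑ e : Ix N, ((e.1 i : ℕ) : ℝ) = N * n / 3 := by
    intro i
    have h1 : (3 : ℝ) * ∑ e : Ix N, ((e.1 i : ℕ) : ℝ) = N * n := by
      rw [hn]
      exact_mod_cast sum_exp N i
    linarith
  set O : ℝ := ∑ e : Ix N, (((e.1 1 : ℕ) % 2 : ℕ) : ℝ) with hO
  have hO0 : 0 ≤ O := Finset.sum_nonneg fun _ _ => Nat.cast_nonneg _
  have hOn : O ≤ n := by
    have h1 : O ≤ ∑ _e : Ix N, (1 : ℝ) := by
      refine Finset.sum_le_sum fun e _ => ?_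
      have : (e.1 1 : ℕ) % 2 ≤ 1 := by omega
      exact_mod_cast this
    rw [Finset.sum_const, Finset.card_univ, nsmul_eq_mul, mul_one] at h1
    exact h1
  set H : ℝ := ∑ e : Ix N, (((e.1 1 : ℕ) / 2 : ℕ) : ℝ) with hH
  have hHO : 2 * H + O = N * n / 3 := by
    rw [← hs 1, hH, hO, Finset.mul_sum, ← Finset.sum_add_distrib]
    refine Finset.sum_congr rfl fun e _ => ?_
    have h3 : 2 * ((e.1 1 : ℕ) / 2) + (e.1 1 : ℕ) % 2 = (e.1 1 : ℕ) := by omega
    exact_mod_cast h3
  have hH0 : 0 ≤ H := Finset.sum_nonneg fun _ _ => Nat.cast_nonneg _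
  have hsum : ∑ e : Ix N, (((e.1 0 : ℕ) : ℝ) * U + (((e.1 1 : ℕ) / 2 : ℕ) : ℝ) *
      (D - 2 * Real.log (f (det2 a b))) +
        (((e.1 1 : ℕ) % 2 : ℕ) : ℝ) * W + ((e.1 2 : ℕ) : ℝ) * V) =
      N * n / 3 * U + H * (D - 2 * Real.log (f (det2 a b))) + O * W + N * n / 3 * V := by
    rw [Finset.sum_add_distrib, Finset.sum_add_distrib, Finset.sum_add_distrib, ← Finset.sum_mul,
      ← Finset.sum_mul, ← Finset.sum_mul, ← Finset.sum_mul, hs 0, hs 2]
  rw [hsum]
  have hOW : -(n * B1) ≤ O * W := by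
    have h1 : O * (-B1) ≤ O * W := mul_le_mul_of_nonneg_left hW hO0
    have h2 : O * B1 ≤ n * B1 := mul_le_mul_of_nonneg_right hOn hB10
    linarith
  have hHN : H ≤ N * n := by
    have : 0 ≤ (N : ℝ) * n := by positivity
    linarith
  have hHδ : H * Real.log (f (det2 a b)) ≤ N * n * δ := by
    have h1 : H * Real.log (f (det2 a b)) ≤ H * δ :=
      mul_le_mul_of_nonneg_left (le_abs_self _) hH0
    have h2 : H * δ ≤ N * n * δ := mul_le_mul_of_nonneg_right hHN hδ0
    linarith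
  have hOD : O / 2 * D ≤ n / 2 * max 0 D := by
    have h1 : O / 2 * D ≤ O / 2 * max 0 D :=
      mul_le_mul_of_nonneg_left (le_max_right _ _) (by positivity)
    have h2 : O / 2 * max 0 D ≤ n / 2 * max 0 D :=
      mul_le_mul_of_nonneg_right (by linarith) (le_max_left _ _)
    linarith
  have hHD : H * D = N * n / 3 * (D / 2) - O / 2 * D := by
    have : H = N * n / 3 / 2 - O / 2 := by linarith
    rw [this]
    ring
  have e1 : H * (D - 2 * Real.log (f (det2 a b))) = H * D - 2 * (H * Real.log (f (det2 a b))) := by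
    ring
  rw [e1, hHD]
  have e2 : (N : ℝ) * n / 3 * (U + V + D / 2) = N * n / 3 * U + N * n / 3 * V +
      N * n / 3 * (D / 2) := by ring
  rw [e2]
  linarith

end loc

section main

variable {k K : Type} [Field k] [NumberField k] [Field K] [NumberField K] [Algebra k K]

theorem mo_hom (F : Type) [Field F] {N : ℕ} (e : Ix N) : (mo F e).IsHomogeneous N := by
  have h := (((isHomogeneous_X F (0 : Fin 3)).pow (e.1 0 : ℕ)).mul
    ((isHomogeneous_X F (1 : Fin 3)).pow (e.1 1 : ℕ))).mul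
    ((isHomogeneous_X F (2 : Fin 3)).pow (e.1 2 : ℕ))
  have h1 : 1 * (e.1 0 : ℕ) + 1 * (e.1 1 : ℕ) + 1 * (e.1 2 : ℕ) = N := by
    have := ix_sum e
    omega
  rw [h1] at h
  exact h

theorem eval_mo (F : Type) [Field F] {N : ℕ} (e : Ix N) (x : Fin 3 → F) :
    eval x (mo F e) = x 0 ^ (e.1 0 : ℕ) * x 1 ^ (e.1 1 : ℕ) * x 2 ^ (e.1 2 : ℕ) := by
  simp [mo]

theorem card_pos (N : ℕ) : 1 ≤ Fintype.card (Ix N) :=
  Fintype.card_pos_iff.2 ⟨mk3 N N 0 0 (by omega)⟩

theorem disc_good {v : Pl k} {f : AbsoluteValue K ℝ} (hf : Good v f) {x : Fin 3 → k}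
    (hx : x ≠ 0) (hD : eval x (DD k) ≠ 0) :
    lam f 2 (DD K) (up K x) = lam (av v) 2 (DD k) x := by
  rw [lam_eq f _ _ (up_ne hx) (by rw [DD_up, Ne, map_eq_zero]; exact hD),
    lam_eq _ _ _ hx hD, DD_up, hf.ext, nrm_up hf]

/-- the inequality at several places, for points off finitely many curves -/
theorem multiK [IsGalois ℚ K] (hi : ∃ z : K, z ^ 2 = -1) {T : Type} [Fintype T] [DecidableEq T]
    (p r : T → Fin 2 → K) (hpr : ∀ t, det2 (p t) (r t) ≠ 0) (N : ℕ) (hN : 1 ≤ N) :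
    ∃ Z : Finset (MvPolynomial (Fin 3) k), (∀ Φ ∈ Z, Φ ≠ 0) ∧ ∀ (S : Finset (Pl k))
      (f : Pl k → AbsoluteValue K ℝ), (∀ v ∈ S, Good v (f v)) → ∀ ε : ℝ, 0 < ε →
      ∃ C : ℝ, 0 ≤ C ∧ ∀ x : Fin 3 → k, x ≠ 0 → (∀ Φ ∈ Z, eval x Φ ≠ 0) →
        eval x (DD k) ≠ 0 →
        (∀ t, eval (up K x) (lff (qa (p t))) ≠ 0 ∧ eval (up K x) (lff (qa (r t))) ≠ 0) ∧
        ∀ β : Pl k → T,
        ∑ v ∈ S, wt v * (lam (f v) 1 (lff (qa (p (β v)))) (up K x) +
          lam (f v) 1 (lff (qa (r (β v)))) (up K x) + lam (f v) 2 (DD K) (up K x) / 2) ≤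
          (3 + 3 / N + ε) * logHeight x + C := by
  classical
  have hfd : FiniteDimensional k K := Module.Finite.of_restrictScalars_finite ℚ k K
  set n : ℕ := Fintype.card (Ix N) with hn
  have hn1 : 1 ≤ n := card_pos N
  let e : Ix N ≃ Fin n := Fintype.equivFin (Ix N)
  have hA := fun t => exists_matrix (qa (p t)) (qw (p t) (r t)) (qa (r t)) (by
    rw [frame_det]
    exact pow_ne_zero _ (hpr t)) N
  choose A hAdet hA using hA
  let L : T × Fin n → Fin n → K := fun l j => A l.1 (e.symm l.2) (e.symm j)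
  obtain ⟨Z0, hZ0, hmain⟩ := schV (k := k) hi hn1 L
  -- the linear forms
  have hdesc : ∀ g : Fin 3 → K, g ≠ 0 → ∃ m : Fin 3 → k, m ≠ 0 ∧ ∀ x : Fin 3 → k,
      eval x (lff m) ≠ 0 → eval (up K x) (lff g) ≠ 0 := by
    intro g hg
    obtain ⟨m, hm, h⟩ := descend (k := k) g hg
    refine ⟨m, hm, fun x hx => ?_⟩
    rw [eval_lff] at hx ⊢
    exact h x hx
  have hrow : ∀ t, qa (p t) ≠ 0 ∧ qw (p t) (r t) ≠ 0 ∧ qa (r t) ≠ 0 := by
    intro t
    have hd : (Matrix.of ![qa (p t), qw (p t) (r t), qa (r t)]).det ≠ 0 := by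
      rw [frame_det]
      exact pow_ne_zero _ (hpr t)
    refine ⟨fun h => hd (Matrix.det_eq_zero_of_row_eq_zero 0 fun j => congrFun h j),
      fun h => hd (Matrix.det_eq_zero_of_row_eq_zero 1 fun j => congrFun h j),
      fun h => hd (Matrix.det_eq_zero_of_row_eq_zero 2 fun j => congrFun h j)⟩
  choose m1 hm1 hm1' using fun t => hdesc _ (hrow t).1
  choose m2 hm2 hm2' using fun t => hdesc _ (hrow t).2.1
  choose m3 hm3 hm3' using fun t => hdesc _ (hrow t).2.2
  have hlne : ∀ m : Fin 3 → k, m ≠ 0 → lff m ≠ 0 := by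
    intro m hm h
    obtain ⟨i, hi'⟩ := Function.ne_iff.1 hm
    apply hi'
    have h1 := congrArg (eval (Pi.single i (1 : k))) h
    rw [eval_lff, map_zero, Finset.sum_eq_single i] at h1
    · rw [Pi.single_eq_same, mul_one] at h1
      exact h1
    · intro j _ hj
      rw [Pi.single_eq_of_ne hj, mul_zero]
    · intro h
      exact absurd (Finset.mem_univ _) h
  let φ : (Fin n → k) → MvPolynomial (Fin 3) k := fun z => ∑ j, z j • mo k (e.symm j)
  have hφ : ∀ z, z ≠ 0 → φ z ≠ 0 := by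
    intro z hz h
    apply hz
    have h1 := (mo_li (F := k) N).comp e.symm e.symm.injective
    exact funext (Fintype.linearIndependent_iff.1 h1 z h)
  let ver : (Fin 3 → k) → Fin n → k := fun x j => eval x (mo k (e.symm j))
  have hφe : ∀ z x, eval x (φ z) = ∑ j, z j * ver x j := by
    intro z x
    show eval x (∑ j, z j • mo k (e.symm j)) = _
    rw [map_sum]
    exact Finset.sum_congr rfl fun j _ => smul_eval _ _ _
  refine ⟨Z0.image φ ∪ (Finset.univ.image (fun t => lff (m1 t)) ∪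
    (Finset.univ.image (fun t => lff (m2 t)) ∪ Finset.univ.image (fun t => lff (m3 t)))), ?_,
    fun S f hf ε hε => ?_⟩
  · intro Φ hΦ
    rcases Finset.mem_union.1 hΦ with h | h
    · obtain ⟨z, hz, rfl⟩ := Finset.mem_image.1 h
      exact hφ z (hZ0 z hz)
    rcases Finset.mem_union.1 h with h | h
    · obtain ⟨t, -, rfl⟩ := Finset.mem_image.1 h
      exact hlne _ (hm1 t)
    rcases Finset.mem_union.1 h with h | h
    · obtain ⟨t, -, rfl⟩ := Finset.mem_image.1 h
      exact hlne _ (hm2 t)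
    · obtain ⟨t, -, rfl⟩ := Finset.mem_image.1 h
      exact hlne _ (hm3 t)
  have hnR : (0 : ℝ) < n := by exact_mod_cast hn1
  have hNR : (0 : ℝ) < N := by exact_mod_cast hN
  obtain ⟨C0, hC00, hC0⟩ := hmain S f hf (n * ε / 3) (by positivity)
  obtain ⟨CD, hCD0, hCD⟩ := liou (DD k) 2 DD_hom
  obtain ⟨CV, hCV⟩ := logHeight_eval_le' (K := k) (fun j : Fin n => mo_hom k (e.symm j))
  have hloc := fun (v : Pl k) (t : T) => loc_sum (f v) (hpr t) N
  choose B hB0 hB using hloc
  set B' : ℝ := ∑ v ∈ S, wt v * ∑ t, B v t with hB'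
  have hB'0 : 0 ≤ B' := Finset.sum_nonneg fun v _ => mul_nonneg (wt_nonneg v)
    (Finset.sum_nonneg fun t _ => hB0 v t)
  set M : ℝ := (N : ℝ) * n / 3 with hM
  have hM0 : 0 < M := by positivity
  refine ⟨((n + n * ε / 3) * |CV| + C0 + n / 2 * CD + B') / M, by positivity,
    fun x hx hZx hD => ?_⟩
  -- the linear forms do not vanish
  have hu1 : ∀ t, eval (up K x) (lff (qa (p t))) ≠ 0 := fun t => hm1' t x (hZx _
    (Finset.mem_union_right _ (Finset.mem_union_left _ (Finset.mem_image_of_mem _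
      (Finset.mem_univ t)))))
  have hu2 : ∀ t, eval (up K x) (lff (qw (p t) (r t))) ≠ 0 := fun t => hm2' t x (hZx _
    (Finset.mem_union_right _ (Finset.mem_union_right _ (Finset.mem_union_left _
      (Finset.mem_image_of_mem _ (Finset.mem_univ t))))))
  have hu3 : ∀ t, eval (up K x) (lff (qa (r t))) ≠ 0 := fun t => hm3' t x (hZx _
    (Finset.mem_union_right _ (Finset.mem_union_right _ (Finset.mem_union_right _
      (Finset.mem_image_of_mem _ (Finset.mem_univ t))))))
  refine ⟨fun t => ⟨hu1 t, hu3 t⟩, fun β => ?_⟩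
  have hDK : eval (up K x) (DD K) ≠ 0 := by
    rw [DD_up, Ne, map_eq_zero]
    exact hD
  -- the Veronese vector
  have hdot : ∀ t (a : Fin n), dot (L (t, a)) (exv K (ver x)) =
      eval (up K x) (ga (qa (p t)) (qw (p t) (r t)) (qa (r t)) (e.symm a)) := by
    intro t a
    rw [hA t, map_sum]
    show ∑ j, A t (e.symm a) (e.symm j) * algebraMap k K (eval x (mo k (e.symm j))) = _
    rw [← Equiv.sum_comp e.symm]
    refine Finset.sum_congr rfl fun j _ => ?_
    rw [smul_eval, eval_mo, eval_mo]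
    simp only [map_mul, map_pow, up]
  have hgne : ∀ t (i : Ix N), eval (up K x) (ga (qa (p t)) (qw (p t) (r t)) (qa (r t)) i) ≠ 0 := by
    intro t i
    rw [eval_ga, disc_id]
    have h1 := hu1 t
    have h2 := hu2 t
    have h3 := hu3 t
    rw [eval_lff] at h1 h2 h3
    rw [eval_DD] at hDK
    exact mul_ne_zero (mul_ne_zero (pow_ne_zero _ h1) (mul_ne_zero (pow_ne_zero _
      (mul_ne_zero (pow_ne_zero _ (hpr t)) hDK)) (pow_ne_zero _ h2))) (pow_ne_zero _ h3)
  have hver : ver x ≠ 0 := by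
    intro h
    obtain ⟨j, hj⟩ := Function.ne_iff.1 hx
    have hj' : x j ≠ 0 := hj
    let ej : Ix N := ⟨fun i => if i = j then ⟨N, by omega⟩ else ⟨0, by omega⟩, by
      rw [Finset.sum_eq_single j]
      · simp
      · intro i _ hij
        simp [hij]
      · intro h
        exact absurd (Finset.mem_univ _) h⟩
    have h1 : eval x (mo k ej) = 0 := by
      have h2 := congrFun h (e ej)
      simp only [ver, Equiv.symm_apply_apply, Pi.zero_apply] at h2
      exact h2
    rw [eval_mo] at h1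
    revert h1
    refine mul_ne_zero (mul_ne_zero ?_ ?_) ?_
    all_goals
      simp only [ej]
      split_ifs with h0
      · rw [h0]
        exact pow_ne_zero _ hj'
      · simp
  have hnrm : ∀ v : Pl k, (N : ℝ) * Real.log (nrm (av v) x) ≤ Real.log (nrm (av v) (ver x)) := by
    intro v
    obtain ⟨j, hj⟩ := exists_nrm (av v) (by norm_num) x
    let ej : Ix N := ⟨fun i => if i = j then ⟨N, by omega⟩ else ⟨0, by omega⟩, by
      rw [Finset.sum_eq_single j]
      · simp
      · intro i _ hij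
        simp [hij]
      · intro h
        exact absurd (Finset.mem_univ _) h⟩
    have h1 := le_nrm (av v) (ver x) (e ej)
    have h2 : ver x (e ej) = x j ^ N := by
      simp only [ver, Equiv.symm_apply_apply]
      rw [eval_mo]
      fin_cases j <;> simp [ej]
    rw [h2, map_pow, hj] at h1
    rw [← Real.log_pow]
    exact Real.log_le_log (pow_pos (nrm_pos _ hx) _) h1
  -- the subspace theorem
  have hsub := hC0 (ver x) hver (by
    intro z hz
    have h1 := hZx (φ z) (Finset.mem_union_left _ (Finset.mem_image_of_mem _ hz))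
    rw [hφe] at h1
    exact h1) (by
    rintro ⟨t, a⟩
    rw [hdot]
    exact hgne _ _) (fun v a => (β v, a)) (by
    intro v _
    have h1 : (Matrix.of fun a => L (β v, a)) = (A (β v)).submatrix e.symm e.symm := rfl
    rw [h1, Matrix.det_submatrix_equiv_self]
    exact hAdet _)
  -- the local estimates
  have hkey : ∀ v ∈ S, M * (wt v * (lam (f v) 1 (lff (qa (p (β v)))) (up K x) +
      lam (f v) 1 (lff (qa (r (β v)))) (up K x) + lam (f v) 2 (DD K) (up K x) / 2)) ≤
      wt v * ∑ a, (Real.log (nrm (av v) (ver x)) -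
          Real.log (f v (dot (L (β v, a)) (exv K (ver x))))) +
      n / 2 * (wt v * max 0 (lam (av v) 2 (DD k) x)) + wt v * ∑ t, B v t := by
    intro v hv
    have h1 := hB v (β v) (up K x) (up_ne hx) (hu1 _) (hu3 _) hDK (hu2 _)
    rw [disc_good (hf v hv) hx hD] at h1 ⊢
    have h2 : B v (β v) ≤ ∑ t, B v t :=
      Finset.single_le_sum (f := B v) (fun t _ => hB0 v t) (Finset.mem_univ _)
    have h3 : ∑ i : Ix N, ((N : ℝ) * Real.log (nrm (f v) (up K x)) -
        Real.log ((f v) (eval (up K x) (ga (qa (p (β v))) (qw (p (β v)) (r (β v)))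
          (qa (r (β v))) i)))) ≤
        ∑ a, (Real.log (nrm (av v) (ver x)) -
          Real.log (f v (dot (L (β v, a)) (exv K (ver x))))) := by
      rw [← Equiv.sum_comp e.symm]
      refine Finset.sum_le_sum fun a _ => ?_
      rw [hdot, nrm_up (hf v hv)]
      have := hnrm v
      linarith
    have h4 := mul_le_mul_of_nonneg_left (h1.trans (add_le_add (add_le_add h3 le_rfl) h2))
      (wt_nonneg v)
    calc _ = wt v * (M * (lam (f v) 1 (lff (qa (p (β v)))) (up K x) +
      lam (f v) 1 (lff (qa (r (β v)))) (up K x) + lam (av v) 2 (DD k) x / 2)) := by ring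
      _ ≤ _ := h4
      _ = _ := by ring
  have hsum := Finset.sum_le_sum hkey
  rw [← Finset.mul_sum, Finset.sum_add_distrib, Finset.sum_add_distrib, ← Finset.mul_sum] at hsum
  have h1 := hCD S x hx hD
  have h2 := hCV x
  have h2' : logHeight (ver x) ≤ CV + N * logHeight x := h2
  have habs := le_abs_self CV
  have hh := logHeight_nonneg x
  have h3 : ((n : ℝ) + n * ε / 3) * logHeight (ver x) ≤
      (n + n * ε / 3) * (|CV| + N * logHeight x) :=
    mul_le_mul_of_nonneg_left (by linarith) (by positivity)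
  have h4 : (n : ℝ) / 2 * ∑ v ∈ S, wt v * max 0 (lam (av v) 2 (DD k) x) ≤
      n / 2 * (2 * logHeight x + CD) := by
    refine mul_le_mul_of_nonneg_left ?_ (by positivity)
    exact_mod_cast h1
  have h5 : M * ∑ v ∈ S, wt v * (lam (f v) 1 (lff (qa (p (β v)))) (up K x) +
      lam (f v) 1 (lff (qa (r (β v)))) (up K x) + lam (f v) 2 (DD K) (up K x) / 2) ≤
      M * ((3 + 3 / N + ε) * logHeight x +
        ((n + n * ε / 3) * |CV| + C0 + n / 2 * CD + B') / M) := by
    rw [mul_add, mul_div_cancel₀ _ hM0.ne']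
    have h6 : M * ((3 + 3 / N + ε) * logHeight x) = (n + n * ε / 3) * (N * logHeight x) +
        n * logHeight x := by
      rw [hM]
      field_simp
      ring
    rw [h6]
    have h7 : ((n : ℝ) + n * ε / 3) * (|CV| + N * logHeight x) =
      (n + n * ε / 3) * |CV| + (n + n * ε / 3) * (N * logHeight x) := by ring
    have h8 : (n : ℝ) / 2 * (2 * logHeight x + CD) = n * logHeight x + n / 2 * CD := by ring
    rw [h7] at h3
    rw [h8] at h4
    linarith
  exact le_of_mul_le_mul_left h5 hM0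

end main

end Pool.Agent.N830.VQ
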