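import Mathlib
import Pool.Agent.N830.VQ.E

/-!
Several places: all divisors.
-/

set_option autoImplicit false
set_option linter.unusedSectionVars false

open Finset

namespace Pool.Agent.N830.VQ

open NumberField IsDedekindDomain Height Module MvPolynomial
open Pool.Agent.W180.OP (Pl av wt nrm le_nrm nrm_pos nrm_nonneg nrm_le exists_nrm lam lam_eq liou
  wt_nonneg cs min_lam sum_le_of_few abv_mv lam_smul eval_smul_hom)
open Pool.Agent.R405 (up up_ne lff lff_hom eval_lff lam_lff nrm_up eval_up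
  lam_up Good exists_good hom_of_map descend schV dot exv)

section sel

variable {F : Type} [Field F]

/-- a complement -/
noncomputable def cpl (a : Fin 2 → F) : Fin 2 → F := by
  classical
  exact if h : a ≠ 0 then (exists_compl h).choose else 0

theorem cpl_det {a : Fin 2 → F} (h : a ≠ 0) : det2 a (cpl a) ≠ 0 := by
  unfold cpl
  rw [dif_pos h]
  exact (exists_compl h).choose_spec

/-- the first point of a pair -/
noncomputable def pp {q : ℕ} (a : Fin q → Fin 2 → F) : Option (Fin q × Fin q) → Fin 2 → F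
  | none => ![1, 0]
  | some t => a t.1

/-- the second point of a pair -/
noncomputable def rr {q : ℕ} (a : Fin q → Fin 2 → F) : Option (Fin q × Fin q) → Fin 2 → F
  | none => ![0, 1]
  | some t => if t.1 = t.2 then cpl (a t.1) else a t.2

theorem pr_det {q : ℕ} (a : Fin q → Fin 2 → F) (ha : ∀ i, a i ≠ 0)
    (hd : ∀ i j, i ≠ j → det2 (a i) (a j) ≠ 0) (t : Option (Fin q × Fin q)) :
    det2 (pp a t) (rr a t) ≠ 0 := by
  rcases t with _ | ⟨i, j⟩
  · simp [pp, rr, det2]
  · by_cases h : i = j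
    · simp only [pp, rr, if_pos h]
      exact cpl_det (ha i)
    · simp only [pp, rr, if_neg h]
      exact hd i j h

/-- the two nearest points -/
theorem select (f : AbsoluteValue F ℝ) {q : ℕ} (a : Fin q → Fin 2 → F) (ha : ∀ i, a i ≠ 0)
    (hd : ∀ i j, i ≠ j → det2 (a i) (a j) ≠ 0) :
    ∃ B : ℝ, 0 ≤ B ∧ ∀ x : Fin 3 → F, x ≠ 0 → (∀ i, eval x (lff (qa (a i))) ≠ 0) →
      (∀ t, eval x (lff (qa (pp a t))) ≠ 0 ∧ eval x (lff (qa (rr a t))) ≠ 0) →
      ∃ t, ∑ i, lam f 1 (lff (qa (a i))) x ≤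
        lam f 1 (lff (qa (pp a t))) x + lam f 1 (lff (qa (rr a t))) x + B := by
  classical
  have h3 : ∀ i j l, ∃ B : ℝ, i ≠ j → i ≠ l → j ≠ l → ∀ x : Fin 3 → F, x ≠ 0 →
      (∀ i, eval x (lff (qa (a i))) ≠ 0) → min (lam f 1 (lff (qa (a i))) x)
        (min (lam f 1 (lff (qa (a j))) x) (lam f 1 (lff (qa (a l))) x)) ≤ B := by
    intro i j l
    by_cases h : i ≠ j ∧ i ≠ l ∧ j ≠ l
    · obtain ⟨B, hB⟩ := loc3 f (hd i j h.1) (hd i l h.2.1) (hd j l h.2.2)
      exact ⟨B, fun _ _ _ x hx hu => hB x hx (hu i) (hu j) (hu l)⟩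
    · exact ⟨0, fun h1 h2 h3 => absurd ⟨h1, h2, h3⟩ h⟩
  choose B3 hB3 using h3
  choose B1 hB10 hB1 using fun t => lam_ge f (lff_hom (qa (pp a t)))
  choose B2 hB20 hB2 using fun t => lam_ge f (lff_hom (qa (rr a t)))
  set B' : ℝ := ∑ i, ∑ j, ∑ l, |B3 i j l| with hB'
  have hB'0 : 0 ≤ B' :=
    Finset.sum_nonneg fun _ _ => Finset.sum_nonneg fun _ _ => Finset.sum_nonneg fun _ _ =>
      abs_nonneg _
  have hB3le : ∀ i j l, B3 i j l ≤ B' := by
    intro i j l
    have h1 : |B3 i j l| ≤ ∑ i, ∑ j, ∑ l, |B3 i j l| :=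
      ((Finset.single_le_sum (f := fun l => |B3 i j l|) (fun _ _ => abs_nonneg _)
        (Finset.mem_univ l)).trans
      (Finset.single_le_sum (f := fun j => ∑ l, |B3 i j l|)
        (fun _ _ => Finset.sum_nonneg fun _ _ => abs_nonneg _) (Finset.mem_univ j))).trans
      (Finset.single_le_sum (f := fun i => ∑ j, ∑ l, |B3 i j l|)
        (fun _ _ => Finset.sum_nonneg fun _ _ => Finset.sum_nonneg fun _ _ => abs_nonneg _)
        (Finset.mem_univ i))
    have := le_abs_self (B3 i j l)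
    linarith
  set B0 : ℝ := ∑ t, B1 t + ∑ t, B2 t with hB0
  have hs1 : 0 ≤ ∑ t, B1 t := Finset.sum_nonneg fun _ _ => hB10 _
  have hs2 : 0 ≤ ∑ t, B2 t := Finset.sum_nonneg fun _ _ => hB20 _
  have hB00 : 0 ≤ B0 := by linarith
  have h1le : ∀ t, B1 t ≤ B0 := by
    intro t
    have := Finset.single_le_sum (f := B1) (fun _ _ => hB10 _) (Finset.mem_univ t)
    linarith
  have h2le : ∀ t, B2 t ≤ B0 := by
    intro t
    have := Finset.single_le_sum (f := B2) (fun _ _ => hB20 _) (Finset.mem_univ t)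
    linarith
  refine ⟨2 * B0 + q * B', by positivity, fun x hx hu ht => ?_⟩
  obtain ⟨t0, -, ht0⟩ := Finset.exists_max_image (Finset.univ : Finset (Option (Fin q × Fin q)))
    (fun t => lam f 1 (lff (qa (pp a t))) x + lam f 1 (lff (qa (rr a t))) x) ⟨none, Finset.mem_univ _⟩
  refine ⟨t0, ?_⟩
  set M := lam f 1 (lff (qa (pp a t0))) x + lam f 1 (lff (qa (rr a t0))) x with hM
  have hlow1 : ∀ t, -B0 ≤ lam f 1 (lff (qa (pp a t))) x := by
    intro t
    have := hB1 t x hx (ht t).1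
    linarith [h1le t]
  have hlow2 : ∀ t, -B0 ≤ lam f 1 (lff (qa (rr a t))) x := by
    intro t
    have := hB2 t x hx (ht t).2
    linarith [h2le t]
  have hR : 0 ≤ M + 2 * B0 := by
    have := hlow1 t0
    have := hlow2 t0
    linarith
  have key := sum_le_of_few (fun i => lam f 1 (lff (qa (a i))) x) B' (M + 2 * B0) hB'0 hR
    (fun i j l hij hil hjl => (hB3 i j l hij hil hjl x hx hu).trans (hB3le i j l)) (by
      intro i
      have h4 := ht0 (some (i, i)) (Finset.mem_univ _)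
      have h5 := hlow2 (some (i, i))
      have h6 : lam f 1 (lff (qa (pp a (some (i, i))))) x = lam f 1 (lff (qa (a i))) x := rfl
      rw [h6] at h4
      show lam f 1 (lff (qa (a i))) x ≤ M + 2 * B0
      linarith) (by
      intro i j hij
      have h4 := ht0 (some (i, j)) (Finset.mem_univ _)
      have h5 : rr a (some (i, j)) = a j := by
        simp only [rr, if_neg hij]
      rw [h5] at h4
      have h6 : lam f 1 (lff (qa (pp a (some (i, j))))) x = lam f 1 (lff (qa (a i))) x := rfl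
      rw [h6] at h4
      show lam f 1 (lff (qa (a i))) x + lam f 1 (lff (qa (a j))) x ≤ M + 2 * B0
      linarith)
  linarith

end sel

section main

variable {k K : Type} [Field k] [NumberField k] [Field K] [NumberField K] [Algebra k K]

/-- several places, over a large field -/
theorem multiA [IsGalois ℚ K] (hi : ∃ z : K, z ^ 2 = -1) {q : ℕ} (a : Fin q → Fin 2 → K)
    (ha : ∀ i, a i ≠ 0) (hd : ∀ i j, i ≠ j → det2 (a i) (a j) ≠ 0) (ε : ℝ) (hε : 0 < ε) :
    ∃ Φ : MvPolynomial (Fin 3) k, Φ ≠ 0 ∧ ∀ (S : Finset (Pl k))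
      (f : Pl k → AbsoluteValue K ℝ), (∀ v ∈ S, Good v (f v)) →
      ∃ C : ℝ, 0 ≤ C ∧ ∀ x : Fin 3 → k, x ≠ 0 → eval x Φ ≠ 0 →
        (∀ i, eval (up K x) (lff (qa (a i))) ≠ 0) → eval x (DD k) ≠ 0 →
        ∑ v ∈ S, wt v * (∑ i, lam (f v) 1 (lff (qa (a i))) (up K x) +
          lam (f v) 2 (DD K) (up K x) / 2) ≤ (3 + ε) * logHeight x + C := by
  classical
  obtain ⟨N, hN⟩ := exists_nat_gt (6 / ε)
  have hNR : (0 : ℝ) < N := lt_trans (by positivity) hN
  have hN1 : 1 ≤ N := by exact_mod_cast hNR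
  obtain ⟨Z, hZ, hmain⟩ := multiK (k := k) hi (pp a) (rr a) (pr_det a ha hd) N hN1
  refine ⟨∏ Φ ∈ Z, Φ, Finset.prod_ne_zero_iff.2 hZ, fun S f hf => ?_⟩
  obtain ⟨C, hC0, hC⟩ := hmain S f hf (ε / 2) (half_pos hε)
  choose B hB0 hB using fun v : Pl k => select (f v) a ha hd
  have hBS : 0 ≤ ∑ v ∈ S, wt v * B v :=
    Finset.sum_nonneg fun v _ => mul_nonneg (wt_nonneg v) (hB0 v)
  refine ⟨C + ∑ v ∈ S, wt v * B v, by positivity, fun x hx hΦ hu hD => ?_⟩
  rw [map_prod] at hΦ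
  obtain ⟨h1, h2⟩ := hC x hx (Finset.prod_ne_zero_iff.1 hΦ) hD
  choose β hβ using fun v : Pl k => hB v (up K x) (up_ne hx) hu h1
  have h3 := h2 β
  have h4 : ∑ v ∈ S, wt v * (∑ i, lam (f v) 1 (lff (qa (a i))) (up K x) +
      lam (f v) 2 (DD K) (up K x) / 2) ≤
      ∑ v ∈ S, wt v * (lam (f v) 1 (lff (qa (pp a (β v)))) (up K x) +
          lam (f v) 1 (lff (qa (rr a (β v)))) (up K x) + lam (f v) 2 (DD K) (up K x) / 2) +
        ∑ v ∈ S, wt v * B v := by
    rw [← Finset.sum_add_distrib]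
    refine Finset.sum_le_sum fun v _ => ?_
    rw [← mul_add]
    refine mul_le_mul_of_nonneg_left ?_ (wt_nonneg v)
    have := hβ v
    linarith
  have hh := logHeight_nonneg x
  have h5 : (3 : ℝ) / N ≤ ε / 2 := by
    rw [div_le_iff₀ hNR]
    rw [div_lt_iff₀ hε] at hN
    linarith
  have h6 : (3 + 3 / (N : ℝ) + ε / 2) * logHeight x ≤ (3 + ε) * logHeight x :=
    mul_le_mul_of_nonneg_right (by linarith) hh
  linarith

end main

end Pool.Agent.N830.VQ
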