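import Mathlib
import Pool.Agent.N830.VQ.C
import Pool.Agent.N830.VQ.G

/-!
Quadratic points of the projective line: the theorems over an arbitrary field of definition of `D`,
and the discriminant as a sum over the places outside `S`.
-/

set_option autoImplicit false
set_option linter.unusedSectionVars false

open Finset

namespace Pool.Agent.N830.VQ

open NumberField IsDedekindDomain Height Module MvPolynomial
open Pool.Agent.W180.OP (Pl av wt nrm le_nrm nrm_pos nrm_nonneg nrm_le exists_nrm lam lam_eq liou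
  wt_nonneg cs min_lam sum_le_of_few abv_mv lam_smul eval_smul_hom fv fv_support_finite)
open Pool.Agent.R405 (up up_ne lff lff_hom eval_lff lam_lff nrm_up eval_up
  lam_up Good exists_good hom_of_map descend schV dot exv exists_big logHeight_sum nrm_finite)

section sums

variable {k : Type} [Field k] [NumberField k]

/-- the local height of the discriminant -/
theorem disc_sum (S : Finset (Pl k)) {n : ℕ} (x : Fin n → k) (hx : x ≠ 0) (c : k) (hc : c ≠ 0) :
    ∑ᶠ (v : Pl k) (_ : v ∉ S), wt v * (2 * Real.log (nrm (av v) x) - Real.log (av v c)) =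
      2 * logHeight x - ∑ v ∈ S, wt v * (2 * Real.log (nrm (av v) x) - Real.log (av v c)) := by
  classical
  set g : Pl k → ℝ := fun v => wt v * (2 * Real.log (nrm (av v) x) - Real.log (av v c)) with hg
  set T : Finset (HeightOneSpectrum (𝓞 k)) :=
    ((nrm_finite x hx).toFinset ∪ (fv_support_finite hc).toFinset) ∪ S.toRight with hT
  set W : Finset (Pl k) := (Finset.univ : Finset (InfinitePlace k)).disjSum T with hW
  have hSW : S ⊆ W := by
    intro v hv
    rw [hW, Finset.mem_disjSum]
    rcases v with v | v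
    · exact Or.inl ⟨v, Finset.mem_univ _, rfl⟩
    · exact Or.inr ⟨v, Finset.mem_union_right _ (Finset.mem_toRight.2 hv), rfl⟩
  have hTx : ∀ v, v ∉ T → nrm (fv v) x = 1 := by
    intro v hv
    by_contra h
    apply hv
    exact Finset.mem_union_left _ (Finset.mem_union_left _ ((Set.Finite.mem_toFinset _).2 h))
  have hTc : ∀ v, v ∉ T → fv v c = 1 := by
    intro v hv
    by_contra h
    apply hv
    exact Finset.mem_union_left _ (Finset.mem_union_right _ ((Set.Finite.mem_toFinset _).2 h))
  have h1 : ∑ᶠ (v : Pl k) (_ : v ∉ S), g v = ∑ v ∈ W \ S, g v := by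
    refine finsum_cond_eq_sum_of_cond_iff _ fun {v} hv => ?_
    rw [Finset.mem_sdiff]
    constructor
    · intro h
      refine ⟨?_, h⟩
      by_contra hW'
      apply hv
      rcases v with v | v
      · exfalso
        apply hW'
        rw [hW, Finset.mem_disjSum]
        exact Or.inl ⟨v, Finset.mem_univ _, rfl⟩
      · have hvT : v ∉ T := by
          intro h
          apply hW'
          rw [hW, Finset.mem_disjSum]
          exact Or.inr ⟨v, h, rfl⟩
        show wt (Sum.inr v : Pl k) * (2 * Real.log (nrm (fv v) x) - Real.log (fv v c)) = 0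
        rw [hTx v hvT, hTc v hvT]
        simp
    · exact fun h => h.2
  rw [h1, Finset.sum_sdiff_eq_sub hSW]
  congr 1
  rw [hW, Finset.sum_disjSum]
  have h2 := logHeight_sum x hx T hTx
  have hc1 : (fun _ : Fin 1 => c) ≠ 0 := by
    intro h
    exact hc (congrFun h 0)
  have hn1 : ∀ f : AbsoluteValue k ℝ, nrm f (fun _ : Fin 1 => c) = f c := by
    intro f
    apply le_antisymm
    · exact nrm_le (f.nonneg _) fun _ => le_rfl
    · exact le_nrm f (fun _ : Fin 1 => c) 0
  have h3 := logHeight_sum (fun _ : Fin 1 => c) hc1 T (fun v hv => by rw [hn1]; exact hTc v hv)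
  rw [logHeight_eq_zero_of_subsingleton] at h3
  simp only [hn1] at h3
  rw [h2]
  have e1 : ∀ w : InfinitePlace k, g (Sum.inl w) = 2 * ((w.mult : ℝ) * Real.log (nrm w.1 x)) -
      (w.mult : ℝ) * Real.log (w.1 c) := by
    intro w
    show (w.mult : ℝ) * (2 * Real.log (nrm w.1 x) - Real.log (w.1 c)) = _
    ring
  have e2 : ∀ v : HeightOneSpectrum (𝓞 k), g (Sum.inr v) =
      2 * Real.log (nrm (fv v) x) - Real.log (fv v c) := by
    intro v
    show (1 : ℝ) * (2 * Real.log (nrm (fv v) x) - Real.log (fv v c)) = _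
    ring
  simp only [e1, e2]
  rw [Finset.sum_sub_distrib, Finset.sum_sub_distrib, ← Finset.mul_sum, ← Finset.mul_sum]
  linarith

end sums

section final

variable {k K : Type} [Field k] [NumberField k] [Field K] [NumberField K] [Algebra k K]

/-- the value of a form at a point -/
def fa {F : Type} [Field F] (P : Fin 3 → F) (a : Fin 2 → F) : F :=
  P 0 * a 0 ^ 2 + P 1 * a 0 * a 1 + P 2 * a 1 ^ 2

theorem fa_eq {F : Type} [Field F] (P : Fin 3 → F) (a : Fin 2 → F) :
    fa P a = ∑ j, qa a j * P j := by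
  rw [qa_dot]
  unfold fa
  ring

/-- the data after extension of the field -/
theorem transfer {M : Type} [Field M] [NumberField M] [Algebra K M] [Algebra k M]
    [IsScalarTower k K M] {q : ℕ} (a : Fin q → Fin 2 → K)
    (R : (Fin 3 → k) → k)
    (hR : ∀ P : Fin 3 → k, algebraMap k K (R P) = ∏ i, fa (fun j => algebraMap k K (P j)) (a i))
    {v : Pl k} {f : AbsoluteValue M ℝ} (hf : Good v f) {P : Fin 3 → k} (hP : P ≠ 0)
    (hRP : R P ≠ 0) :
    (∀ i, eval (up M P) (lff (qa (fun l => algebraMap K M (a i l)))) ≠ 0) ∧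
    ∑ i, lam f 1 (lff (qa (fun l => algebraMap K M (a i l)))) (up M P) =
      q * Real.log (nrm (av v) P) - Real.log (av v (R P)) := by
  have h1 : ∀ i, eval (up M P) (lff (qa (fun l => algebraMap K M (a i l)))) =
      algebraMap K M (fa (fun j => algebraMap k K (P j)) (a i)) := by
    intro i
    rw [eval_lff, ← fa_eq]
    simp only [fa, up, map_add, map_mul, map_pow]
    simp only [← IsScalarTower.algebraMap_apply k K M]
  have h2 : ∏ i, eval (up M P) (lff (qa (fun l => algebraMap K M (a i l)))) =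
      algebraMap k M (R P) := by
    rw [IsScalarTower.algebraMap_apply k K M, hR, map_prod]
    exact Finset.prod_congr rfl fun i _ => h1 i
  have h3 : ∀ i, eval (up M P) (lff (qa (fun l => algebraMap K M (a i l)))) ≠ 0 := by
    intro i h
    have h4 := Finset.prod_eq_zero
      (f := fun i => eval (up M P) (lff (qa (fun l => algebraMap K M (a i l)))))
      (Finset.mem_univ i) h
    rw [h2, map_eq_zero] at h4
    exact hRP h4
  refine ⟨h3, ?_⟩
  rw [← hf.ext, ← h2, map_prod, Real.log_prod (fun i _ => (f.pos_iff.2 (h3 i)).ne')]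
  rw [Finset.sum_congr rfl fun i _ => lam_eq f 1 _ (up_ne hP) (h3 i),
    Finset.sum_sub_distrib, nrm_up hf]
  push_cast
  simp only [one_mul, Finset.sum_const, Finset.card_univ, Fintype.card_fin, nsmul_eq_mul]

theorem lam_disc {v : Pl k} {f : AbsoluteValue K ℝ} (hf : Good v f) {P : Fin 3 → k}
    (hP : P ≠ 0) (hD : eval P (DD k) ≠ 0) :
    lam f 2 (DD K) (up K P) = 2 * Real.log (nrm (av v) P) - Real.log (av v (eval P (DD k))) := by
  rw [disc_good hf hP hD, lam_eq _ _ _ hP hD]
  push_cast
  rfl

theorem ne_of_disc {P : Fin 3 → k} (hD : eval P (DD k) ≠ 0) : P ≠ 0 := by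
  rintro rfl
  apply hD
  rw [eval_DD]
  simp

/-- both theorems -/
theorem both {q : ℕ} (a : Fin q → Fin 2 → K) (ha : ∀ i, a i ≠ 0)
    (hd : ∀ i j, i ≠ j → a i 0 * a j 1 ≠ a i 1 * a j 0) (R : (Fin 3 → k) → k)
    (hR : ∀ P : Fin 3 → k, algebraMap k K (R P) = ∏ i, fa (fun j => algebraMap k K (P j)) (a i)) :
    (∀ ε : ℝ, 0 < ε → ∃ Φ : MvPolynomial (Fin 3) k, Φ ≠ 0 ∧ ∀ S : Finset (Pl k), ∃ C : ℝ,
      ∀ P : Fin 3 → k, eval P Φ ≠ 0 → R P ≠ 0 → eval P (DD k) ≠ 0 →
        ∑ v ∈ S, wt v * ((q * Real.log (nrm (av v) P) - Real.log (av v (R P))) +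
          (2 * Real.log (nrm (av v) P) - Real.log (av v (eval P (DD k)))) / 2) ≤
          (3 + ε) * logHeight P + C) ∧
    (∀ (v : Pl k) (ε : ℝ), 0 < ε → ∃ C : ℝ,
      ∀ P : Fin 3 → k, R P ≠ 0 → eval P (DD k) ≠ 0 →
        wt v * ((q * Real.log (nrm (av v) P) - Real.log (av v (R P))) +
          (2 * Real.log (nrm (av v) P) - Real.log (av v (eval P (DD k))))) ≤
          (4 + ε) * logHeight P + C) := by
  obtain ⟨M, hM1, hM2, hi, ⟨φ⟩⟩ := exists_big K
  have : NumberField M := ⟨⟩
  let _ : Algebra K M := φ.toAlgebra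
  let _ : Algebra k M := (φ.comp (algebraMap k K)).toAlgebra
  have : IsScalarTower k K M := IsScalarTower.of_algebraMap_eq fun _ => rfl
  set a' : Fin q → Fin 2 → M := fun i l => algebraMap K M (a i l) with ha'def
  have ha' : ∀ i, a' i ≠ 0 := by
    intro i h
    apply ha i
    funext l
    have := congrFun h l
    simpa [ha'def] using this
  have hd' : ∀ i j, i ≠ j → det2 (a' i) (a' j) ≠ 0 := by
    intro i j hij h
    apply hd i j hij
    apply (algebraMap K M).injective
    rw [map_mul, map_mul]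
    exact sub_eq_zero.1 h
  constructor
  · intro ε hε
    obtain ⟨Φ, hΦ, hmain⟩ := multiA (k := k) hi a' ha' hd' ε hε
    refine ⟨Φ, hΦ, fun S => ?_⟩
    choose f hf using fun v : Pl k => exists_good (K := M) v
    obtain ⟨C, hC0, hC⟩ := hmain S f (fun v _ => hf v)
    refine ⟨C, fun P hΦP hRP hD => ?_⟩
    have hP := ne_of_disc hD
    have h1 := hC P hP hΦP (transfer a R hR (hf (Classical.arbitrary _)) hP hRP).1 hD
    refine le_trans (le_of_eq ?_) h1
    refine Finset.sum_congr rfl fun v _ => ?_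
    rw [(transfer a R hR (hf v) hP hRP).2, lam_disc (hf v) hP hD]
  · intro v ε hε
    obtain ⟨f, hf⟩ := exists_good (K := M) v
    obtain ⟨C, hC0, hC⟩ := oneK (k := k) hi v f hf a' ha' hd' ε hε
    refine ⟨C, fun P hRP hD => ?_⟩
    have hP := ne_of_disc hD
    obtain ⟨h1, h2⟩ := transfer a R hR hf hP hRP
    have h3 := hC P hP h1 hD
    unfold exc at h3
    rw [h2, lam_disc hf hP hD] at h3
    linarith

end final

end Pool.Agent.N830.VQ
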